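import Pool.Agent.H802.TreeCl.KK

set_option autoImplicit false

namespace H802.TreeCl

open Finset H223R3.Tree

variable {V : Type*} [DecidableEq V] (G : SimpleGraph V) [DecidableRel G.Adj]

/-- the vertices of `Q` other than `u` which have a non-neighbour in `Q` -/
def touched (Q : Finset V) (u : V) : Finset V :=
  (Q.erase u).filter (fun a => ∃ b ∈ Q, b ≠ a ∧ ¬ G.Adj a b)

theorem mem_touched (Q : Finset V) (u a : V) :
    a ∈ touched G Q u ↔ (a ≠ u ∧ a ∈ Q) ∧ ∃ b ∈ Q, b ≠ a ∧ ¬ G.Adj a b := by
  rw [touched, mem_filter, mem_erase]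

theorem embed {W : Type} [Fintype W] [DecidableEq W] (T : SimpleGraph W) (K : ℕ)
    (hW : Fintype.card W = K + 4) (l p : W) (hlp : T.Adj l p) (hup : ∀ q, T.Adj l q → q = p)
    (I : Finset W) (hI1 : l ∉ I) (hI2 : p ∉ I) (hI3 : ∀ i ∈ I, ¬ T.Adj p i)
    (hI4 : ∀ i ∈ I, ∀ i' ∈ I, ¬ T.Adj i i') (S : Finset V) (hS : NoCopy G T S)
    (Q : Finset V) (hQS : Q ⊆ S) (hQ : Q.card = K + 3) (u z : V) (hu : u ∈ Q) (hz : z ∈ S)
    (hzQ : z ∉ Q) (huz : G.Adj u z) : I.card < (touched G Q u).card := by
  by_contra hcon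
  push Not at hcon
  set C := touched G Q u with hC
  obtain ⟨J, hJI, hJC⟩ := Finset.exists_subset_card_eq hcon
  let e : {x // x ∈ J} ≃ {x // x ∈ C} := Finset.equivOfCardEq hJC
  let f : W → V := fun w => if h : w ∈ J then (e ⟨w, h⟩).1 else if w = l then z else u
  have hCu : u ∉ C := by
    rw [hC, mem_touched]
    exact fun h => h.1.1 rfl
  have hCQ : ∀ x ∈ C, x ∈ Q := fun x hx => ((mem_touched G Q u x).1 (hC ▸ hx)).1.2
  have hCz : z ∉ C := fun h => hzQ (hCQ z h)
  have hlJ : l ∉ J := fun h => hI1 (hJI h)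
  have hpJ : p ∉ J := fun h => hI2 (hJI h)
  have hfJ : ∀ w (h : w ∈ J), f w = (e ⟨w, h⟩).1 := fun w h => dif_pos h
  have hfl : f l = z := by
    show (if h : l ∈ J then (e ⟨l, h⟩).1 else if l = l then z else u) = z
    rw [dif_neg hlJ, if_pos rfl]
  have hfp : f p = u := by
    show (if h : p ∈ J then (e ⟨p, h⟩).1 else if p = l then z else u) = u
    rw [dif_neg hpJ, if_neg hlp.ne.symm]
  have huz' : u ≠ z := fun h => hzQ (h ▸ hu)
  let s : Finset W := insert l (insert p J)
  let t : Finset V := insert z Q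
  have ht : Fintype.card W = t.card := by
    rw [hW, card_insert_of_notMem hzQ, hQ]
  have hst : s.image f ⊆ t := by
    intro x hx
    rw [mem_image] at hx
    obtain ⟨w, hw, rfl⟩ := hx
    rw [mem_insert, mem_insert] at hw
    rcases hw with rfl | rfl | hw
    · rw [hfl]; exact mem_insert_self _ _
    · rw [hfp]; exact mem_insert_of_mem hu
    · rw [hfJ w hw]
      exact mem_insert_of_mem (hCQ _ (e ⟨w, hw⟩).2)
  have hinj : Set.InjOn f s := by
    intro a ha b hb hab
    rw [mem_coe, mem_insert, mem_insert] at ha hb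
    rcases ha with rfl | rfl | ha
    · rcases hb with rfl | rfl | hb
      · rfl
      · rw [hfl, hfp] at hab; exact absurd hab.symm huz'
      · rw [hfl, hfJ b hb] at hab
        exact absurd (hab ▸ (e ⟨b, hb⟩).2) hCz
    · rcases hb with rfl | rfl | hb
      · rw [hfl, hfp] at hab; exact absurd hab huz'
      · rfl
      · rw [hfp, hfJ b hb] at hab
        exact absurd (hab ▸ (e ⟨b, hb⟩).2) hCu
    · rcases hb with rfl | rfl | hb
      · rw [hfl, hfJ a ha] at hab
        exact absurd (hab ▸ (e ⟨a, ha⟩).2) hCz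
      · rw [hfp, hfJ a ha] at hab
        exact absurd (hab ▸ (e ⟨a, ha⟩).2) hCu
      · rw [hfJ a ha, hfJ b hb] at hab
        have := e.injective (Subtype.ext hab)
        exact congrArg Subtype.val this
  obtain ⟨g, hg⟩ := Finset.exists_equiv_extend_of_card_eq ht hst hinj
  have hgl : (g l).1 = z := (hg l (mem_insert_self _ _)).trans hfl
  have hgp : (g p).1 = u := (hg p (mem_insert_of_mem (mem_insert_self _ _))).trans hfp
  have hginj : ∀ a b, (g a).1 = (g b).1 → a = b := fun a b h => g.injective (Subtype.ext h)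
  have hgQ : ∀ w, w ≠ l → (g w).1 ∈ Q := by
    intro w hw
    have h1 : (g w).1 ∈ insert z Q := (g w).2
    rw [mem_insert] at h1
    rcases h1 with h1 | h1
    · exact absurd (hginj w l (h1.trans hgl.symm)) hw
    · exact h1
  have hgC : ∀ w, (g w).1 ∈ C → w ∈ I := by
    intro w hw
    let j := e.symm ⟨(g w).1, hw⟩
    have h1 : (g j.1).1 = (g w).1 := by
      rw [hg j.1 (mem_insert_of_mem (mem_insert_of_mem j.2)), hfJ j.1 j.2]
      show (e (e.symm ⟨(g w).1, hw⟩)).1 = (g w).1
      rw [Equiv.apply_symm_apply]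
    have h2 := hginj _ _ h1
    rw [← h2]
    exact hJI j.2
  apply hS
  refine ⟨fun w => (g w).1, fun a b h => hginj a b h, ?_, ?_⟩
  · intro w
    have h1 : (g w).1 ∈ insert z Q := (g w).2
    rw [mem_insert] at h1
    show (g w).1 ∈ S
    rcases h1 with h1 | h1
    · rw [h1]; exact hz
    · exact hQS h1
  · intro a b hab
    show G.Adj (g a).1 (g b).1
    by_cases ha : a = l
    · have hb : b = p := hup b (ha ▸ hab)
      rw [ha, hb, hgl, hgp]
      exact huz.symm
    · by_cases hb : b = l
      · have ha' : a = p := hup a (hb ▸ hab.symm)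
        rw [ha', hb, hgl, hgp]
        exact huz
      · by_contra hadj
        have haQ := hgQ a ha
        have hbQ := hgQ b hb
        have hne : (g a).1 ≠ (g b).1 := fun h => hab.ne (hginj a b h)
        have hau : (g a).1 = u ∨ a ∈ I := by
          by_cases h : (g a).1 = u
          · exact Or.inl h
          · right
            apply hgC
            rw [hC, mem_touched]
            exact ⟨⟨h, haQ⟩, _, hbQ, hne.symm, hadj⟩
        have hbu : (g b).1 = u ∨ b ∈ I := by
          by_cases h : (g b).1 = u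
          · exact Or.inl h
          · right
            apply hgC
            rw [hC, mem_touched]
            exact ⟨⟨h, hbQ⟩, _, haQ, hne, fun h' => hadj h'.symm⟩
        rcases hau with hau | hau
        · have hap := hginj a p (hau.trans hgp.symm)
          rcases hbu with hbu | hbu
          · exact hne (hau.trans hbu.symm)
          · exact hI3 b hbu (hap ▸ hab)
        · rcases hbu with hbu | hbu
          · have hbp := hginj b p (hbu.trans hgp.symm)
            exact hI3 a hau (hbp ▸ hab.symm)
          · exact hI4 a hau b hbu hab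

end H802.TreeCl
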