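import Mathlib

set_option autoImplicit false

namespace H802.TreeCl

open Finset

/-- `T` is a tree with `m + 1` vertices which is not a star: a leaf `l` with neighbour `p`, and an
independent set `I` of at least `(m-2)/2` vertices which are not neighbours of `p`. -/
theorem leaf {W : Type} [Fintype W] [DecidableEq W] (T : SimpleGraph W) (hT : T.IsTree) (K : ℕ)
    (hW : Fintype.card W = K + 4) (hns : ∀ p, ∃ w, w ≠ p ∧ ¬ T.Adj p w) :
    ∃ (l p : W) (I : Finset W), T.Adj l p ∧ (∀ q, T.Adj l q → q = p) ∧ l ∉ I ∧ p ∉ I ∧
      (∀ i ∈ I, ¬ T.Adj p i) ∧ (∀ i ∈ I, ∀ i' ∈ I, ¬ T.Adj i i') ∧ K + 1 ≤ 2 * I.card := by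
  classical
  obtain ⟨c⟩ : T.Colorable 2 := hT.colorable_two
  -- it is enough to treat a colouring in which colour class `A` is the larger one
  suffices H : ∀ A B : Finset W, (∀ w, w ∈ A ↔ w ∉ B) → (∀ a b, T.Adj a b → (a ∈ A ↔ b ∈ B)) →
      B.card ≤ A.card → ∃ (l p : W) (I : Finset W), T.Adj l p ∧ (∀ q, T.Adj l q → q = p) ∧
      l ∉ I ∧ p ∉ I ∧ (∀ i ∈ I, ¬ T.Adj p i) ∧ (∀ i ∈ I, ∀ i' ∈ I, ¬ T.Adj i i') ∧
      K + 1 ≤ 2 * I.card by
    have hc : ∀ a b, T.Adj a b → (c a = 0 ↔ c b = 1) := by
      intro a b hab
      have h1 : c a ≠ c b := c.valid hab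
      constructor
      · intro h
        rw [h] at h1
        exact Fin.eq_one_of_ne_zero _ (fun h' => h1 h'.symm)
      · intro h
        rw [h] at h1
        by_contra h'
        exact h1 (Fin.eq_one_of_ne_zero _ h')
    have h01 : ∀ w, c w = 0 ↔ ¬ c w = 1 := by
      intro w
      constructor
      · intro h; rw [h]; exact Fin.zero_ne_one
      · intro h
        by_contra h'
        exact h (Fin.eq_one_of_ne_zero _ h')
    rcases le_total (univ.filter (fun w => c w = 1)).card (univ.filter (fun w => c w = 0)).card
      with h | h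
    · refine H (univ.filter (fun w => c w = 0)) (univ.filter (fun w => c w = 1)) ?_ ?_ h
      · intro w
        rw [mem_filter, mem_filter]
        simp only [mem_univ, true_and]
        exact h01 w
      · intro a b hab
        rw [mem_filter, mem_filter]
        simp only [mem_univ, true_and]
        exact hc a b hab
    · refine H (univ.filter (fun w => c w = 1)) (univ.filter (fun w => c w = 0)) ?_ ?_ h
      · intro w
        rw [mem_filter, mem_filter]
        simp only [mem_univ, true_and]
        have := h01 w
        tauto
      · intro a b hab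
        rw [mem_filter, mem_filter]
        simp only [mem_univ, true_and]
        exact (hc b a hab.symm).symm
  intro A B hAB hadj hle
  have hcardAB : A.card + B.card = K + 4 := by
    have h1 : A = Bᶜ := by
      ext w; rw [mem_compl]; exact hAB w
    rw [h1, card_compl, hW]
    have := card_le_univ B
    rw [hW] at this
    omega
  have hpar : ∀ l, T.degree l = 1 → ∃ p, T.Adj l p ∧ ∀ q, T.Adj l q → q = p := by
    intro l hl
    obtain ⟨p, hp, hu⟩ := SimpleGraph.degree_eq_one_iff_existsUnique_adj.mp hl
    exact ⟨p, hp, fun q hq => hu q hq⟩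
  have hnt : Nontrivial W := Fintype.one_lt_card_iff_nontrivial.1 (by omega)
  have hdegpos : ∀ w, 1 ≤ T.degree w := by
    intro w
    exact hT.connected.preconnected.degree_pos_of_nontrivial w
  by_cases hcase : ∃ l ∈ B, T.degree l = 1
  · obtain ⟨l, hlB, hl⟩ := hcase
    obtain ⟨p, hlp, hup⟩ := hpar l hl
    have hpA : p ∈ A := (hadj p l hlp.symm).2 hlB
    have hlA : l ∉ A := fun h => (hAB l).1 h hlB
    have hind : ∀ a ∈ A, ∀ b ∈ A, ¬ T.Adj a b := by
      intro a ha b hb hab
      exact (hAB b).1 hb ((hadj a b hab).1 ha)
    refine ⟨l, p, A.erase p, hlp, hup, fun h => hlA (mem_of_mem_erase h), notMem_erase p A,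
      fun i hi => hind p hpA i (mem_of_mem_erase hi),
      fun i hi i' hi' => hind i (mem_of_mem_erase hi) i' (mem_of_mem_erase hi'), ?_⟩
    rw [card_erase_of_mem hpA]
    omega
  · push Not at hcase
    have hbip : T.IsBipartiteWith (A : Set W) (B : Set W) := by
      refine ⟨?_, ?_⟩
      · rw [Finset.disjoint_coe, Finset.disjoint_left]
        intro w h1 h2
        exact (hAB w).1 h1 h2
      · intro a b hab
        by_cases ha : a ∈ A
        · exact Or.inl ⟨ha, (hadj a b hab).1 ha⟩
        · right
          have haB : a ∈ B := by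
            by_contra h
            exact ha ((hAB a).2 h)
          exact ⟨haB, (hadj b a hab.symm).2 haB⟩
    have hE := hT.card_edgeFinset
    rw [hW] at hE
    have hsA : ∑ v ∈ A, T.degree v = K + 3 := by
      rw [SimpleGraph.isBipartiteWith_sum_degrees_eq_card_edges hbip]; omega
    have hsB : ∑ v ∈ B, T.degree v = K + 3 := by
      rw [SimpleGraph.isBipartiteWith_sum_degrees_eq_card_edges' hbip]; omega
    have hB2 : ∀ b ∈ B, 2 ≤ T.degree b := by
      intro b hb
      have h1 := hdegpos b
      have h2 := hcase b hb
      omega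
    have hindB : ∀ a ∈ B, ∀ b ∈ B, ¬ T.Adj a b := by
      intro a ha b hb hab
      exact (hAB a).1 ((hadj a b hab).2 hb) ha
    -- two parents of leaves
    have htwo : ∃ p ∈ B, ∃ p' ∈ B, p ≠ p' ∧ (∃ l, T.Adj l p ∧ T.degree l = 1) ∧
        (∃ l, T.Adj l p' ∧ T.degree l = 1) := by
      by_contra hcon
      push Not at hcon
      obtain ⟨l0, hl0⟩ := hT.exists_vert_degree_one_of_nontrivial
      obtain ⟨p0, hp0, hup0⟩ := hpar l0 hl0
      have hl0A : l0 ∈ A := by
        by_contra h
        have : l0 ∈ B := by
          by_contra h'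
          exact h ((hAB l0).2 h')
        exact hcase l0 this hl0
      have hp0B : p0 ∈ B := (hadj l0 p0 hp0).1 hl0A
      have hall : ∀ l, T.degree l = 1 → T.Adj p0 l := by
        intro l hl
        obtain ⟨p, hp, hup⟩ := hpar l hl
        have hlA : l ∈ A := by
          by_contra h
          have : l ∈ B := by
            by_contra h'
            exact h ((hAB l).2 h')
          exact hcase l this hl
        have hpB : p ∈ B := (hadj l p hp).1 hlA
        by_cases h : p = p0
        · rw [← h]; exact hp.symm
        · exact absurd hl0 (hcon p hpB p0 hp0B h ⟨l, hp, hl⟩ l0 hp0)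
      -- count
      set L := A.filter (fun w => T.degree w = 1) with hL
      have hLsub : L ⊆ T.neighborFinset p0 := by
        intro w hw
        rw [hL, mem_filter] at hw
        rw [SimpleGraph.mem_neighborFinset]
        exact hall w hw.2
      have hLle : L.card ≤ T.degree p0 := by
        rw [← SimpleGraph.card_neighborFinset_eq_degree]
        exact card_le_card hLsub
      have h1 : 2 * A.card ≤ ∑ v ∈ A, T.degree v + L.card := by
        rw [hL, card_filter, ← sum_add_distrib, mul_comm, ← smul_eq_mul, ← sum_const]
        apply sum_le_sum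
        intro v _
        have := hdegpos v
        split_ifs with h <;> omega
      have h2 : T.degree p0 + 2 * (B.card - 1) ≤ ∑ v ∈ B, T.degree v := by
        rw [← add_sum_erase B _ hp0B, ← card_erase_of_mem hp0B, mul_comm, ← smul_eq_mul,
          ← sum_const]
        apply Nat.add_le_add_left
        apply sum_le_sum
        intro v hv
        exact hB2 v (mem_of_mem_erase hv)
      have hBpos : 1 ≤ B.card := card_pos.2 ⟨p0, hp0B⟩
      have hLeq : L = T.neighborFinset p0 := by
        apply eq_of_subset_of_card_le hLsub
        rw [SimpleGraph.card_neighborFinset_eq_degree]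
        omega
      -- every neighbour of `p0` is a leaf, so `T` is a star
      have hclos : ∀ a b, T.Adj a b → (b = p0 ∨ T.Adj p0 b) → (a = p0 ∨ T.Adj p0 a) := by
        intro a b hab hb
        rcases hb with hb | hb
        · right
          rw [← hb]; exact hab.symm
        · left
          have hbL : b ∈ L := by
            rw [hLeq, SimpleGraph.mem_neighborFinset]; exact hb
          rw [hL, mem_filter] at hbL
          obtain ⟨q, hq, huq⟩ := hpar b hbL.2
          rw [huq a hab.symm, huq p0 hb.symm]
      have hwalk : ∀ {a b : W} (wk : T.Walk a b), (b = p0 ∨ T.Adj p0 b) →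
          (a = p0 ∨ T.Adj p0 a) := by
        intro a b wk
        induction wk with
        | nil => exact id
        | cons hab _ ih => exact fun h => hclos _ _ hab (ih h)
      have hstar : ∀ w, w = p0 ∨ T.Adj p0 w := by
        intro w
        obtain ⟨wk⟩ := hT.connected.preconnected w p0
        exact hwalk wk (Or.inl rfl)
      obtain ⟨w, hw1, hw2⟩ := hns p0
      rcases hstar w with h | h
      · exact hw1 h
      · exact hw2 h
    -- choose the parent of smaller degree
    have hfin : ∀ p ∈ B, ∀ p' ∈ B, p ≠ p' → (∃ l, T.Adj l p ∧ T.degree l = 1) →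
        T.degree p ≤ T.degree p' → ∃ (l p : W) (I : Finset W), T.Adj l p ∧
        (∀ q, T.Adj l q → q = p) ∧ l ∉ I ∧ p ∉ I ∧ (∀ i ∈ I, ¬ T.Adj p i) ∧
        (∀ i ∈ I, ∀ i' ∈ I, ¬ T.Adj i i') ∧ K + 1 ≤ 2 * I.card := by
      rintro p hp p' hp' hne ⟨l, hlp, hl⟩ hdeg
      obtain ⟨q, hq, huq⟩ := hpar l hl
      have hpq : p = q := huq p hlp
      refine ⟨l, p, A.filter (fun a => ¬ T.Adj p a), hlp, fun x hx => by rw [hpq]; exact huq x hx,
        ?_, ?_, ?_, ?_, ?_⟩
      · rw [mem_filter]
        exact fun h => h.2 hlp.symm
      · rw [mem_filter]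
        exact fun h => (hAB p).1 h.1 hp
      · intro i hi
        exact (mem_filter.1 hi).2
      · intro i hi i' hi' h
        exact (hAB i').1 (mem_filter.1 hi').1 ((hadj i i' h).1 (mem_filter.1 hi).1)
      · have h1 : (A.filter (fun a => T.Adj p a)).card + (A.filter (fun a => ¬ T.Adj p a)).card =
            A.card := card_filter_add_card_filter_not (s := A) (fun a => T.Adj p a)
        have h2 : (A.filter (fun a => T.Adj p a)).card ≤ T.degree p := by
          rw [← SimpleGraph.card_neighborFinset_eq_degree]
          apply card_le_card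
          intro w hw
          rw [SimpleGraph.mem_neighborFinset]
          exact (mem_filter.1 hw).2
        have hp'2 : p' ∈ B.erase p := mem_erase.2 ⟨hne.symm, hp'⟩
        have h3 : T.degree p + (T.degree p' + 2 * (B.card - 2)) ≤ ∑ v ∈ B, T.degree v := by
          have e : B.card - 2 = ((B.erase p).erase p').card := by
            rw [card_erase_of_mem hp'2, card_erase_of_mem hp]; omega
          rw [← add_sum_erase B _ hp, ← add_sum_erase (B.erase p) _ hp'2, e, mul_comm,
            ← smul_eq_mul, ← sum_const]
          apply Nat.add_le_add_left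
          apply Nat.add_le_add_left
          apply sum_le_sum
          intro v hv
          exact hB2 v (mem_of_mem_erase (mem_of_mem_erase hv))
        have hB2' : 2 ≤ B.card := by
          have h5 : ({p, p'} : Finset W) ⊆ B := by
            intro x hx
            rw [mem_insert, mem_singleton] at hx
            rcases hx with rfl | rfl
            · exact hp
            · exact hp'
          have h6 := card_le_card h5
          rw [card_pair hne] at h6
          exact h6
        omega
    obtain ⟨p, hp, p', hp', hne, h1, h2⟩ := htwo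
    rcases le_total (T.degree p) (T.degree p') with h | h
    · exact hfin p hp p' hp' hne h1 h
    · exact hfin p' hp' p hp hne.symm h2 h

end H802.TreeCl
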