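import Pool.Agent.H802.TreeCl.Emb
import Pool.Agent.H802.TreeCl.Leaf

set_option autoImplicit false

namespace H802.TreeCl

open Finset H223R3.Tree

/-! ### the numerical inequality -/

theorem base8 (x y : ℕ) (h : 4 * x ≤ 3 * y + 3) : 9 * x.choose 8 ≤ y.choose 8 := by
  rcases Nat.lt_or_ge x 8 with hx | hx
  · rw [Nat.choose_eq_zero_of_lt hx]; omega
  · obtain ⟨X, rfl⟩ : ∃ X, x = X + 8 := ⟨x - 8, by omega⟩
    obtain ⟨Y, rfl⟩ : ∃ Y, y = Y + 8 := ⟨y - 8, by omega⟩
    have h0 : 4 * X + 5 ≤ 3 * Y := by omega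
    have e1 : (X + 8) * (X + 7) * (X + 6) * (X + 5) * (X + 4) * (X + 3) * (X + 2) * (X + 1) =
        40320 * (X + 8).choose 8 := by
      have := Nat.descFactorial_eq_factorial_mul_choose (X + 8) 8
      rw [show Nat.factorial 8 = 40320 from rfl] at this
      rw [← this]
      simp only [Nat.descFactorial]
      have a1 : X + 8 - 0 = X + 8 := by omega
      have a2 : X + 8 - 1 = X + 7 := by omega
      have a3 : X + 8 - 2 = X + 6 := by omega
      have a4 : X + 8 - 3 = X + 5 := by omega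
      have a5 : X + 8 - 4 = X + 4 := by omega
      have a6 : X + 8 - 5 = X + 3 := by omega
      have a7 : X + 8 - 6 = X + 2 := by omega
      have a8 : X + 8 - 7 = X + 1 := by omega
      rw [a1, a2, a3, a4, a5, a6, a7, a8]
      ring
    have e2 : (Y + 8) * (Y + 7) * (Y + 6) * (Y + 5) * (Y + 4) * (Y + 3) * (Y + 2) * (Y + 1) =
        40320 * (Y + 8).choose 8 := by
      have := Nat.descFactorial_eq_factorial_mul_choose (Y + 8) 8
      rw [show Nat.factorial 8 = 40320 from rfl] at this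
      rw [← this]
      simp only [Nat.descFactorial]
      have a1 : Y + 8 - 0 = Y + 8 := by omega
      have a2 : Y + 8 - 1 = Y + 7 := by omega
      have a3 : Y + 8 - 2 = Y + 6 := by omega
      have a4 : Y + 8 - 3 = Y + 5 := by omega
      have a5 : Y + 8 - 4 = Y + 4 := by omega
      have a6 : Y + 8 - 5 = Y + 3 := by omega
      have a7 : Y + 8 - 6 = Y + 2 := by omega
      have a8 : Y + 8 - 7 = Y + 1 := by omega
      rw [a1, a2, a3, a4, a5, a6, a7, a8]
      ring
    have p1 : (4 * (X + 8)) * (4 * (X + 2)) ≤ (3 * (Y + 8)) * (3 * (Y + 2)) := by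
      calc (4 * (X + 8)) * (4 * (X + 2)) ≤ (3 * Y + 27) * (3 * Y + 3) :=
            Nat.mul_le_mul (by omega) (by omega)
        _ ≤ _ := by nlinarith
    have p2 : (4 * (X + 7)) * (4 * (X + 3)) ≤ (3 * (Y + 7)) * (3 * (Y + 3)) := by
      calc (4 * (X + 7)) * (4 * (X + 3)) ≤ (3 * Y + 23) * (3 * Y + 7) :=
            Nat.mul_le_mul (by omega) (by omega)
        _ ≤ _ := by nlinarith
    have p3 : (4 * (X + 6)) * (4 * (X + 4)) ≤ (3 * (Y + 6)) * (3 * (Y + 4)) := by
      calc (4 * (X + 6)) * (4 * (X + 4)) ≤ (3 * Y + 19) * (3 * Y + 11) :=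
            Nat.mul_le_mul (by omega) (by omega)
        _ ≤ _ := by nlinarith
    have p4 : 4 * (X + 5) ≤ 3 * (Y + 5) := by omega
    have p5 : 4 * (X + 1) ≤ 3 * (Y + 1) := by omega
    have p6 := Nat.mul_le_mul (Nat.mul_le_mul (Nat.mul_le_mul (Nat.mul_le_mul p1 p2) p3) p4) p5
    have p7 : 65536 * ((X + 8) * (X + 7) * (X + 6) * (X + 5) * (X + 4) * (X + 3) * (X + 2) *
        (X + 1)) ≤ 6561 * ((Y + 8) * (Y + 7) * (Y + 6) * (Y + 5) * (Y + 4) * (Y + 3) * (Y + 2) *
        (Y + 1)) := by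
      calc _ = (4 * (X + 8)) * (4 * (X + 2)) * ((4 * (X + 7)) * (4 * (X + 3))) *
            ((4 * (X + 6)) * (4 * (X + 4))) * (4 * (X + 5)) * (4 * (X + 1)) := by ring
        _ ≤ _ := p6
        _ = _ := by ring
    rw [e1, e2] at p7
    omega

theorem star_num (x y : ℕ) (h : 4 * x ≤ 3 * y + 3) (j : ℕ) (hj : 8 ≤ j) :
    (j + 1) * x.choose j ≤ y.choose j := by
  induction j, hj using Nat.le_induction with
  | base => exact base8 x y h
  | succ j hj ih =>
    rcases Nat.lt_or_ge x (j + 1) with hx | hx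
    · rw [Nat.choose_eq_zero_of_lt hx]; omega
    · have h1 : x.choose (j + 1) * (j + 1) = x.choose j * (x - j) := Nat.choose_succ_right_eq x j
      have h2 : y.choose (j + 1) * (j + 1) = y.choose j * (y - j) := Nat.choose_succ_right_eq y j
      obtain ⟨X, rfl⟩ : ∃ X, x = X + j := ⟨x - j, by omega⟩
      obtain ⟨Y, rfl⟩ : ∃ Y, y = Y + j := ⟨y - j, by omega⟩
      have e1 : X + j - j = X := by omega
      have e2 : Y + j - j = Y := by omega
      rw [e1] at h1
      rw [e2] at h2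
      have h3 : (j + 2) * X ≤ (j + 1) * Y := by
        have h4 : 4 * X + j ≤ 3 * Y + 3 := by omega
        have h6 : 4 * ((j + 2) * X) + (j + 2) * j ≤ (j + 2) * (3 * Y + 3) := by
          calc 4 * ((j + 2) * X) + (j + 2) * j = (j + 2) * (4 * X + j) := by ring
            _ ≤ _ := Nat.mul_le_mul_left _ h4
        have h5 : 1 ≤ X := by omega
        have h7 : (j + 2) * (3 * Y + 3) ≤ 4 * ((j + 1) * Y) + (j + 2) * j := by
          obtain ⟨i, rfl⟩ : ∃ i, j = i + 8 := ⟨j - 8, by omega⟩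
          nlinarith
        omega
      have h8 : ((j + 1) * (j + 1)) * ((j + 1 + 1) * (X + j).choose (j + 1)) ≤
          ((j + 1) * (j + 1)) * (Y + j).choose (j + 1) := by
        calc ((j + 1) * (j + 1)) * ((j + 1 + 1) * (X + j).choose (j + 1))
            = (j + 1) * (j + 2) * ((X + j).choose (j + 1) * (j + 1)) := by ring
          _ = (j + 1) * (j + 2) * ((X + j).choose j * X) := by rw [h1]
          _ = ((j + 1) * (X + j).choose j) * ((j + 2) * X) := by ring
          _ ≤ (Y + j).choose j * ((j + 1) * Y) := Nat.mul_le_mul ih h3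
          _ = (j + 1) * ((Y + j).choose j * Y) := by ring
          _ = (j + 1) * ((Y + j).choose (j + 1) * (j + 1)) := by rw [h2]
          _ = _ := by ring
      exact Nat.le_of_mul_le_mul_left h8 (by positivity)

variable {V : Type*} [DecidableEq V] (G : SimpleGraph V) [DecidableRel G.Adj]

theorem touched_le (N : Finset V) (v u : V) (hv : ∀ w ∈ N, G.Adj v w) :
    (touched G (insert v N) u).card ≤ (miss G N).card := by
  classical
  have h : ∀ a ∈ touched G (insert v N) u, ∃ b, a ∈ N ∧ b ∈ N ∧ b ≠ a ∧ ¬ G.Adj a b := by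
    intro a ha
    rw [mem_touched] at ha
    obtain ⟨⟨_, haQ⟩, b, hbQ, hba, hadj⟩ := ha
    rw [mem_insert] at haQ hbQ
    rcases haQ with rfl | haN
    · rcases hbQ with rfl | hbN
      · exact absurd rfl hba
      · exact absurd (hv b hbN) hadj
    · rcases hbQ with rfl | hbN
      · exact absurd (hv a haN).symm hadj
      · exact ⟨b, haN, hbN, hba, hadj⟩
  choose! g hg using h
  apply card_le_card_of_injOn (fun a => (a, g a))
  · intro a ha
    obtain ⟨h1, h2, h3, h4⟩ := hg a ha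
    rw [mem_coe, mem_miss]
    exact ⟨⟨h1, h2⟩, h3.symm, h4⟩
  · intro a _ b _ hab
    exact (Prod.ext_iff.1 hab).1

/-- The rate for all vertices when no set of `k - 1` vertices is closed. -/
theorem rate {W : Type} [Fintype W] (T : SimpleGraph W) (hT : T.IsTree) (K R : ℕ)
    (hR : 7 ≤ R) (hW : Fintype.card W = K + 4)
    (hns : ∀ p, ∃ w, w ≠ p ∧ ¬ T.Adj p w) (S : Finset V) (hS : NoCopy G T S)
    (hcl : ∀ Q ⊆ S, Q.card = K + 3 → ∃ u ∈ Q, ∃ z ∈ S, z ∉ Q ∧ G.Adj u z) (v : V) (hv : v ∈ S) :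
    (K + 1) * (cl G (R + 2) (nb G S v)).card ≤
      (K + 1).choose (R + 2) * (nb G S v).card := by
  classical
  rcases Nat.lt_trichotomy (nb G S v).card (K + 2) with hlt | heq | hgt
  · exact low G (K + 1) R (nb G S v) (by omega)
  · obtain ⟨l, p, I, hlp, hup, hI1, hI2, hI3, hI4, hI5⟩ := leaf T hT K hW hns
    have hvn : v ∉ nb G S v := by
      rw [mem_nb]
      exact fun h => h.2.ne rfl
    have hQS : insert v (nb G S v) ⊆ S := by
      apply insert_subset hv
      intro x hx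
      exact ((mem_nb G S v x).1 hx).1
    have hQc : (insert v (nb G S v)).card = K + 3 := by
      rw [card_insert_of_notMem hvn, heq]
    obtain ⟨u, hu, z, hz, hzQ, huz⟩ := hcl _ hQS hQc
    have h1 := embed G T K hW l p hlp hup I hI1 hI2 hI3 hI4 S hS _ hQS hQc u z hu hz hzQ huz
    have h2 := touched_le G (nb G S v) v u (fun w hw => ((mem_nb G S v w).1 hw).2)
    have h3 := kk G (R + 1) (K + 1) (nb G S v) heq ((K + 4) / 4) (by omega) (by omega)
    have h4 := star_num (K + 1 - (K + 4) / 4) K (by omega) (R + 1) (by omega)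
    have h5 : (K + 1) * K.choose (R + 1) = (K + 1).choose (R + 2) * (R + 2) :=
      Nat.add_one_mul_choose_eq K (R + 1)
    have h6 : (K + 1) * (K + 1 - (K + 4) / 4).choose (R + 1) ≤ (K + 1).choose (R + 2) := by
      have h7 : (R + 2) * ((K + 1) * (K + 1 - (K + 4) / 4).choose (R + 1)) ≤
          (R + 2) * (K + 1).choose (R + 2) := by
        calc (R + 2) * ((K + 1) * (K + 1 - (K + 4) / 4).choose (R + 1))
            = (K + 1) * ((R + 1 + 1) * (K + 1 - (K + 4) / 4).choose (R + 1)) := by ring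
          _ ≤ (K + 1) * K.choose (R + 1) := Nat.mul_le_mul_left _ h4
          _ = (R + 2) * (K + 1).choose (R + 2) := by rw [h5]; ring
      exact Nat.le_of_mul_le_mul_left h7 (by omega)
    rw [heq]
    calc (K + 1) * (cl G (R + 2) (nb G S v)).card
        ≤ (K + 1) * ((K + 1).choose (R + 2) + (K + 1 - (K + 4) / 4).choose (R + 1)) :=
          Nat.mul_le_mul_left _ h3
      _ = (K + 1) * (K + 1).choose (R + 2) + (K + 1) * (K + 1 - (K + 4) / 4).choose (R + 1) := by
          ring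
      _ ≤ (K + 1) * (K + 1).choose (R + 2) + (K + 1).choose (R + 2) :=
          Nat.add_le_add_left h6 _
      _ = _ := by ring
  · exact high G T hT K R hW S hS v hv (by omega)

theorem bound2 {W : Type} [Fintype W] (T : SimpleGraph W) (hT : T.IsTree) (K R : ℕ)
    (hR : 7 ≤ R) (hW : Fintype.card W = K + 4)
    (hns : ∀ p, ∃ w, w ≠ p ∧ ¬ T.Adj p w) (S : Finset V) (hS : NoCopy G T S)
    (hcl : ∀ Q ⊆ S, Q.card = K + 3 → ∃ u ∈ Q, ∃ z ∈ S, z ∉ Q ∧ G.Adj u z) :
    (K + 1) * ((R + 3) * (cl G (R + 3) S).card) ≤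
      (K + 1).choose (R + 2) * ((K + 2) * S.card) := by
  have h1 := cl_succ G (R + 2) S
  have h2 := es_inside G T hT (K + 4) (by omega) hW S hS
  have e1 : K + 4 - 2 = K + 2 := by omega
  rw [e1] at h2
  calc (K + 1) * ((R + 3) * (cl G (R + 3) S).card)
      ≤ (K + 1) * ∑ v ∈ S, (cl G (R + 2) (S.filter (fun w => G.Adj v w))).card :=
        Nat.mul_le_mul_left _ h1
    _ = ∑ v ∈ S, (K + 1) * (cl G (R + 2) (nb G S v)).card := by
        rw [Finset.mul_sum]; rfl
    _ ≤ ∑ v ∈ S, (K + 1).choose (R + 2) * (nb G S v).card :=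
        Finset.sum_le_sum (fun v hv => rate G T hT K R hR hW hns S hS hcl v hv)
    _ = (K + 1).choose (R + 2) * ∑ v ∈ S, (S.filter (fun w => G.Adj v w)).card := by
        rw [Finset.mul_sum]; rfl
    _ ≤ _ := Nat.mul_le_mul_left _ h2

/-- removal of all closed sets of `k - 1` vertices -/
theorem split2 (K r : ℕ) : ∀ (n : ℕ) (S : Finset V), S.card = n →
    ∃ (a : ℕ) (S' : Finset V), S' ⊆ S ∧ S.card = S'.card + a * (K + 3) ∧
      (∀ Q ⊆ S', Q.card = K + 3 → ∃ u ∈ Q, ∃ z ∈ S', z ∉ Q ∧ G.Adj u z) ∧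
      (cl G r S).card ≤ a * (K + 3).choose r + (cl G r S').card := by
  intro n
  induction n using Nat.strong_induction_on with
  | _ n ih =>
    intro S hn
    by_cases h0 : ∀ Q ⊆ S, Q.card = K + 3 → ∃ u ∈ Q, ∃ z ∈ S, z ∉ Q ∧ G.Adj u z
    · exact ⟨0, S, le_rfl, by omega, h0, by omega⟩
    · push Not at h0
      obtain ⟨Q, hQS, hQc, hcl⟩ := h0
      have hlt : (S \ Q).card < n := by
        rw [card_sdiff_of_subset hQS, hn, hQc]
        have := card_le_card hQS
        omega
      obtain ⟨a, S', h1, h2, h3, h4⟩ := ih _ hlt (S \ Q) rfl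
      refine ⟨a + 1, S', h1.trans sdiff_subset, ?_, h3, ?_⟩
      · have h6 := card_sdiff_of_subset hQS
        have h7 := card_le_card hQS
        rw [hQc] at h6 h7
        rw [Nat.add_mul, Nat.one_mul]
        omega
      · have h6 := cl_split G r S Q (fun x hx y hy hyQ => hcl x hx y hy hyQ)
        rw [hQc] at h6
        rw [Nat.add_mul, Nat.one_mul]
        omega

/-- numerical consequence -/
theorem num3 (K R n N : ℕ) (hR : R ≤ K)
    (h1 : (K + 1) * ((R + 3) * N) ≤ (K + 1).choose (R + 2) * ((K + 2) * n))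
    (h2 : f (K + 3) (R + 3) n < N) :
    (R + 1) * n < (K + 1) * (n % (K + 3)) := by
  have e1 : (K + 3) * (K + 2).choose (R + 2) = (K + 3).choose (R + 3) * (R + 3) :=
    Nat.add_one_mul_choose_eq (K + 2) (R + 2)
  have e2 : (K + 1).choose (R + 2) * (K + 2) = (K + 2).choose (R + 2) * (K + 2 - (R + 2)) :=
    Nat.choose_mul_succ_eq (K + 1) (R + 2)
  have e3 : K + 2 - (R + 2) = K - R := by omega
  rw [e3] at e2
  have h5 : n = (n / (K + 3)) * (K + 3) + n % (K + 3) := by
    rw [Nat.mul_comm]; exact (Nat.div_add_mod n (K + 3)).symm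
  set q := n / (K + 3) with hq
  set b := n % (K + 3) with hb
  have hpos : 0 < (K + 2).choose (R + 2) := Nat.choose_pos (by omega)
  have h3 : (K + 2).choose (R + 2) * ((K + 1) * (q * (K + 3))) <
      (K + 2).choose (R + 2) * ((K - R) * n) := by
    calc (K + 2).choose (R + 2) * ((K + 1) * (q * (K + 3)))
        = (K + 1) * (q * ((K + 3) * (K + 2).choose (R + 2))) := by ring
      _ = (K + 1) * ((R + 3) * (q * (K + 3).choose (R + 3))) := by rw [e1]; ring
      _ ≤ (K + 1) * ((R + 3) * f (K + 3) (R + 3) n) :=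
          Nat.mul_le_mul_left _ (Nat.mul_le_mul_left _ (Nat.le_add_right _ _))
      _ < (K + 1) * ((R + 3) * N) :=
          Nat.mul_lt_mul_of_pos_left (Nat.mul_lt_mul_of_pos_left h2 (by omega)) (by omega)
      _ ≤ (K + 1).choose (R + 2) * ((K + 2) * n) := h1
      _ = ((K + 1).choose (R + 2) * (K + 2)) * n := by ring
      _ = ((K + 2).choose (R + 2) * (K - R)) * n := by rw [e2]
      _ = _ := by ring
  have h4 := lt_of_mul_lt_mul_left h3 (Nat.zero_le _)
  obtain ⟨s, rfl⟩ : ∃ s, K = R + s := ⟨K - R, by omega⟩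
  have e4 : R + s - R = s := by omega
  rw [e4] at h4
  have h6 : (R + s + 1) * n = (R + s + 1) * (q * (R + s + 3)) + (R + s + 1) * b := by
    conv_lhs => rw [h5]
    ring
  have h7 : (R + s + 1) * n = (R + 1) * n + s * n := by ring
  omega

/-- The reduction for non-stars. -/
theorem reduce2 {W : Type} [Fintype W] (T : SimpleGraph W) (hT : T.IsTree) (K R : ℕ)
    (hR7 : 7 ≤ R) (hR : R ≤ K) (hW : Fintype.card W = K + 4)
    (hns : ∀ p, ∃ w, w ≠ p ∧ ¬ T.Adj p w) (S : Finset V) (hS : NoCopy G T S)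
    (h : f (K + 3) (R + 3) S.card < (cl G (R + 3) S).card) :
    ∃ (a : ℕ) (S' : Finset V), S' ⊆ S ∧ S.card = S'.card + a * (K + 3) ∧
      (R + 1) * S'.card < (K + 1) * (S.card % (K + 3)) ∧
      f (K + 3) (R + 3) S'.card < (cl G (R + 3) S').card ∧ K + 3 ≤ S'.card := by
  obtain ⟨a, S', h1, h2, h3, h4⟩ := split2 G K (R + 3) _ S rfl
  have hb := bound2 G T hT K R hR7 hW hns S' (NoCopy.mono G T h1 hS) h3
  have hf : f (K + 3) (R + 3) S.card = a * (K + 3).choose (R + 3) + f (K + 3) (R + 3) S'.card := by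
    rw [h2, f_add _ _ _ _ (by omega)]
  have h8 : f (K + 3) (R + 3) S'.card < (cl G (R + 3) S').card := by omega
  have h7 := num3 K R _ _ hR hb h8
  have hmod : S.card % (K + 3) = S'.card % (K + 3) := by
    rw [h2, Nat.add_mul_mod_self_right]
  refine ⟨a, S', h1, h2, by rw [hmod]; exact h7, h8, ?_⟩
  by_contra hcon
  push Not at hcon
  have h9 := cl_le_choose G (R + 3) S'
  have h10 : f (K + 3) (R + 3) S'.card = S'.card.choose (R + 3) := by
    unfold f
    rw [Nat.div_eq_of_lt hcon, Nat.mod_eq_of_lt hcon]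
    omega
  omega

end H802.TreeCl
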