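import Pool.Agent.H802.TreeCl.Split
import Pool.Graph.R_seed8.R367.TF.SUP

set_option autoImplicit false

namespace H802.TreeCl

open Finset H223R3.Tree

variable {V : Type*} [DecidableEq V] (G : SimpleGraph V) [DecidableRel G.Adj]

/-- ordered pairs of distinct non-adjacent vertices -/
def miss (N : Finset V) : Finset (V × V) :=
  (N ×ˢ N).filter (fun p => p.1 ≠ p.2 ∧ ¬ G.Adj p.1 p.2)

theorem mem_miss (N : Finset V) (p : V × V) :
    p ∈ miss G N ↔ (p.1 ∈ N ∧ p.2 ∈ N) ∧ p.1 ≠ p.2 ∧ ¬ G.Adj p.1 p.2 := by
  rw [miss, mem_filter, mem_product]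

theorem miss_erase (N : Finset V) (w : V) :
    (miss G N).card ≤ (miss G (N.erase w)).card +
      2 * ((N.erase w).filter (fun x => ¬ G.Adj w x)).card := by
  set D := (N.erase w).filter (fun x => ¬ G.Adj w x) with hD
  have hsub : miss G N ⊆ miss G (N.erase w) ∪ (D.image (fun x => (w, x)) ∪
      D.image (fun x => (x, w))) := by
    intro p hp
    rw [mem_miss] at hp
    rw [mem_union, mem_union, mem_miss]
    by_cases h1 : p.1 = w
    · right; left
      rw [mem_image]
      refine ⟨p.2, ?_, ?_⟩
      · rw [hD, mem_filter, mem_erase]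
        refine ⟨⟨fun h => hp.2.1 (by rw [h1, h]), hp.1.2⟩, ?_⟩
        rw [← h1]; exact hp.2.2
      · rw [← h1]
    · by_cases h2 : p.2 = w
      · right; right
        rw [mem_image]
        refine ⟨p.1, ?_, ?_⟩
        · rw [hD, mem_filter, mem_erase]
          refine ⟨⟨h1, hp.1.1⟩, ?_⟩
          rw [← h2]; exact fun h => hp.2.2 h.symm
        · rw [← h2]
      · left
        exact ⟨⟨mem_erase.2 ⟨h1, hp.1.1⟩, mem_erase.2 ⟨h2, hp.1.2⟩⟩, hp.2⟩
  calc (miss G N).card ≤ _ := card_le_card hsub
    _ ≤ (miss G (N.erase w)).card + (D.image (fun x => (w, x)) ∪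
      D.image (fun x => (x, w))).card := card_union_le _ _
    _ ≤ (miss G (N.erase w)).card + ((D.image (fun x => (w, x))).card +
      (D.image (fun x => (x, w))).card) := Nat.add_le_add_left (card_union_le _ _) _
    _ ≤ (miss G (N.erase w)).card + (D.card + D.card) :=
      Nat.add_le_add_left (Nat.add_le_add card_image_le card_image_le) _
    _ = _ := by ring

/-- cliques with and without `w` -/
theorem cl_erase (j : ℕ) (N : Finset V) (w : V) :
    (cl G (j + 1) N).card ≤ (cl G (j + 1) (N.erase w)).card +
      ((N.erase w).filter (fun x => G.Adj w x)).card.choose j := by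
  have hsub : cl G (j + 1) N ⊆ cl G (j + 1) (N.erase w) ∪
      (((N.erase w).filter (fun x => G.Adj w x)).powersetCard j).image (insert w) := by
    intro Q hQ
    rw [mem_cl] at hQ
    rw [mem_union, mem_cl, mem_image]
    by_cases h : w ∈ Q
    · right
      refine ⟨Q.erase w, ?_, insert_erase h⟩
      rw [mem_powersetCard]
      refine ⟨?_, by rw [card_erase_of_mem h, hQ.1.2]; omega⟩
      intro x hx
      rw [mem_erase] at hx
      rw [mem_filter, mem_erase]
      exact ⟨⟨hx.1, hQ.1.1 hx.2⟩, hQ.2 w h x hx.2 hx.1.symm⟩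
    · left
      refine ⟨⟨?_, hQ.1.2⟩, hQ.2⟩
      intro x hx
      rw [mem_erase]
      exact ⟨fun h' => h (h' ▸ hx), hQ.1.1 hx⟩
  calc (cl G (j + 1) N).card ≤ _ := card_le_card hsub
    _ ≤ _ := card_union_le _ _
    _ ≤ _ := by
      apply Nat.add_le_add_left
      exact card_image_le.trans (card_powersetCard _ _).le

theorem conv (j a b x y : ℕ) (h1 : x ≤ a) (h2 : y ≤ a) (h3 : x + y = a + b) :
    x.choose j + y.choose j ≤ a.choose j + b.choose j := by
  rcases j with _ | j
  · simp
  have h := R367.TF.SUP.mono_diff j b y (a - y) (by omega)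
  have e1 : y + (a - y) = a := by omega
  have e2 : b + (a - y) = x := by omega
  rw [e1, e2] at h
  omega

/-- The Kruskal–Katona type bound: at least `q` missing edges, `q < |N|`. -/
theorem kk (j : ℕ) : ∀ (n : ℕ) (N : Finset V), N.card = n + 1 → ∀ q : ℕ, q ≤ n →
    2 * q ≤ (miss G N).card →
    (cl G (j + 1) N).card ≤ n.choose (j + 1) + (n - q).choose j := by
  intro n
  induction n with
  | zero =>
    intro N hN q hq _
    have h := cl_le_choose G (j + 1) N
    rw [hN] at h
    have e : (0 + 1).choose (j + 1) = Nat.choose 0 j + Nat.choose 0 (j + 1) :=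
      Nat.choose_succ_succ' 0 j
    rw [e] at h
    have : 0 - q = 0 := by omega
    rw [this]
    omega
  | succ n ih =>
    intro N hN q hq hmiss
    rcases Nat.eq_zero_or_pos q with rfl | hq0
    · have h := cl_le_choose G (j + 1) N
      rw [hN] at h
      have e : (n + 1 + 1).choose (j + 1) = (n + 1).choose j + (n + 1).choose (j + 1) :=
        Nat.choose_succ_succ' (n + 1) j
      rw [e] at h
      rw [Nat.sub_zero]
      omega
    · have hne : (miss G N).Nonempty := by
        rw [← card_pos]; omega
      obtain ⟨⟨w, w'⟩, hp⟩ := hne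
      rw [mem_miss] at hp
      have hw : w ∈ N := hp.1.1
      set D := (N.erase w).filter (fun x => ¬ G.Adj w x) with hD
      have hD1 : 1 ≤ D.card := by
        rw [Nat.succ_le_iff, card_pos]
        exact ⟨w', mem_filter.2 ⟨mem_erase.2 ⟨fun h => hp.2.1 h.symm, hp.1.2⟩, hp.2.2⟩⟩
      have hNe : (N.erase w).card = n + 1 := by
        rw [card_erase_of_mem hw, hN]; omega
      have hsplit : ((N.erase w).filter (fun x => G.Adj w x)).card + D.card = n + 1 := by
        rw [hD, ← hNe]
        exact card_filter_add_card_filter_not (s := N.erase w) (fun x => G.Adj w x)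
      have h1 := miss_erase G N w
      rw [← hD] at h1
      have h2 := cl_erase G j N w
      have h3 : ((N.erase w).filter (fun x => G.Adj w x)).card = n + 1 - D.card := by omega
      rw [h3] at h2
      have e : (n + 1).choose (j + 1) = n.choose j + n.choose (j + 1) :=
        Nat.choose_succ_succ' n j
      rcases Nat.lt_or_ge q D.card with hlt | hge
      · have h4 := ih (N.erase w) hNe 0 (by omega) (by omega)
        rw [Nat.sub_zero] at h4
        have h5 : (n + 1 - D.card).choose j ≤ (n + 1 - q).choose j :=
          Nat.choose_le_choose j (by omega)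
        omega
      · have h4 := ih (N.erase w) hNe (q - D.card) (by omega) (by omega)
        have h5 := conv j n (n + 1 - q) (n - (q - D.card)) (n + 1 - D.card) (by omega) (by omega)
          (by omega)
        omega

end H802.TreeCl
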