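import Pool.Agent.H802.TreeCl.Sharp

set_option autoImplicit false

namespace H802.TreeCl

open Finset H223R3.Tree

/-- the remainder `b = k - 2` -/
theorem num4 (K R n N : ℕ) (hR : R ≤ K) (hn : K + 3 ≤ n) (hb : n % (K + 3) = K + 2)
    (h1 : (K + 1) * ((R + 3) * N) ≤ (K + 1).choose (R + 2) * ((K + 2) * n))
    (h2 : f (K + 3) (R + 3) n < N) : False := by
  have e1 : (K + 3) * (K + 2).choose (R + 2) = (K + 3).choose (R + 3) * (R + 3) :=
    Nat.add_one_mul_choose_eq (K + 2) (R + 2)
  have e0 : (K + 2) * (K + 1).choose (R + 2) = (K + 2).choose (R + 3) * (R + 3) :=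
    Nat.add_one_mul_choose_eq (K + 1) (R + 2)
  have e2 : (K + 1).choose (R + 2) * (K + 2) = (K + 2).choose (R + 2) * (K + 2 - (R + 2)) :=
    Nat.choose_mul_succ_eq (K + 1) (R + 2)
  have e3 : K + 2 - (R + 2) = K - R := by omega
  rw [e3] at e2
  have h5 : n = (n / (K + 3)) * (K + 3) + (K + 2) := by
    have := Nat.div_add_mod n (K + 3)
    rw [hb, Nat.mul_comm] at this
    exact this.symm
  have hq1 : 1 ≤ n / (K + 3) := (Nat.one_le_div_iff (by omega)).2 hn
  have hf : f (K + 3) (R + 3) n = n / (K + 3) * (K + 3).choose (R + 3) +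
      (K + 2).choose (R + 3) := by
    unfold f
    rw [hb]
  set q := n / (K + 3) with hq
  have hpos : 0 < (K + 2).choose (R + 2) := Nat.choose_pos (by omega)
  have h3 : (K + 2).choose (R + 2) * ((K + 1) * (q * (K + 3) + (K - R))) <
      (K + 2).choose (R + 2) * ((K - R) * n) := by
    calc (K + 2).choose (R + 2) * ((K + 1) * (q * (K + 3) + (K - R)))
        = (K + 1) * (q * ((K + 3) * (K + 2).choose (R + 2)) +
            (K + 2).choose (R + 2) * (K - R)) := by ring
      _ = (K + 1) * (q * ((K + 3).choose (R + 3) * (R + 3)) +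
            (K + 2).choose (R + 3) * (R + 3)) := by
          rw [e1, ← e2, ← e0]; ring
      _ = (K + 1) * ((R + 3) * f (K + 3) (R + 3) n) := by rw [hf]; ring
      _ < (K + 1) * ((R + 3) * N) :=
          Nat.mul_lt_mul_of_pos_left (Nat.mul_lt_mul_of_pos_left h2 (by omega)) (by omega)
      _ ≤ (K + 1).choose (R + 2) * ((K + 2) * n) := h1
      _ = ((K + 1).choose (R + 2) * (K + 2)) * n := by ring
      _ = ((K + 2).choose (R + 2) * (K - R)) * n := by rw [e2]
      _ = _ := by ring
  have h4 := lt_of_mul_lt_mul_left h3 (Nat.zero_le _)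
  obtain ⟨s, rfl⟩ : ∃ s, K = R + s := ⟨K - R, by omega⟩
  have e4 : R + s - R = s := by omega
  rw [e4] at h4
  have h6 : s * n = s * (q * (R + s + 3)) + s * (R + s + 2) := by
    conv_lhs => rw [h5]
    ring
  have h7 : (R + s + 1) * (q * (R + s + 3) + s) = s * (q * (R + s + 3)) +
      (R + 1) * (q * (R + s + 3)) + (R + s + 1) * s := by ring
  have h8 : (R + 1) * (1 * (R + s + 3)) ≤ (R + 1) * (q * (R + s + 3)) :=
    Nat.mul_le_mul_left _ (Nat.mul_le_mul_right _ hq1)
  have h9 : s * (R + s + 2) = (R + s + 1) * s + s := by ring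
  have h10 : s ≤ (R + 1) * (1 * (R + s + 3)) := by nlinarith
  omega

/-- The reduction for non-stars, with the estimate. -/
theorem reduce4 {V : Type*} [DecidableEq V] (G : SimpleGraph V) [DecidableRel G.Adj]
    {W : Type} [Fintype W] (T : SimpleGraph W) (hT : T.IsTree) (K R : ℕ)
    (hR : R ≤ K) (hW : Fintype.card W = K + 4)
    (hns : ∀ p, ∃ w, w ≠ p ∧ ¬ T.Adj p w) (S : Finset V) (hS : NoCopy G T S)
    (hb : S.card % (K + 3) = K + 2)
    (h : f (K + 3) (R + 3) S.card < (cl G (R + 3) S).card) : False := by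
  obtain ⟨a, S', h1, h2, h3, h4⟩ := split2 G K (R + 3) _ S rfl
  have hb3 := bound3 G T hT K R hW hns S' (NoCopy.mono G T h1 hS) h3
  have hf : f (K + 3) (R + 3) S.card = a * (K + 3).choose (R + 3) + f (K + 3) (R + 3) S'.card := by
    rw [h2, f_add _ _ _ _ (by omega)]
  have h8 : f (K + 3) (R + 3) S'.card < (cl G (R + 3) S').card := by omega
  have hmod : S.card % (K + 3) = S'.card % (K + 3) := by
    rw [h2, Nat.add_mul_mod_self_right]
  refine num4 K R _ _ hR ?_ (by rw [← hmod]; exact hb) hb3 h8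
  by_contra hcon
  push Not at hcon
  have h9 := cl_le_choose G (R + 3) S'
  have h10 : f (K + 3) (R + 3) S'.card = S'.card.choose (R + 3) := by
    unfold f
    rw [Nat.div_eq_of_lt hcon, Nat.mod_eq_of_lt hcon]
    omega
  omega

end H802.TreeCl
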