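import Pool.Agent.H802.TreeCl.Last

set_option autoImplicit false

namespace H802.TreeCl

open Finset H223R3.Tree

/-- the general condition on the remainder `b` -/
def Good (K R b : ℕ) : Prop :=
  b * (K - R) * (K + 2).choose (R + 2) ≤
    (K + 3) * (R + 1) * (K + 2).choose (R + 2) + (K + 1) * ((R + 3) * b.choose (R + 3))

theorem num5 (K R n N : ℕ) (hR : R ≤ K) (hn : K + 3 ≤ n) (hb : Good K R (n % (K + 3)))
    (h1 : (K + 1) * ((R + 3) * N) ≤ (K + 1).choose (R + 2) * ((K + 2) * n))
    (h2 : f (K + 3) (R + 3) n < N) : False := by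
  have e1 : (K + 3) * (K + 2).choose (R + 2) = (K + 3).choose (R + 3) * (R + 3) :=
    Nat.add_one_mul_choose_eq (K + 2) (R + 2)
  have e2 : (K + 1).choose (R + 2) * (K + 2) = (K + 2).choose (R + 2) * (K + 2 - (R + 2)) :=
    Nat.choose_mul_succ_eq (K + 1) (R + 2)
  have e3 : K + 2 - (R + 2) = K - R := by omega
  rw [e3] at e2
  have h5 : n = (n / (K + 3)) * (K + 3) + n % (K + 3) := by
    have := Nat.div_add_mod n (K + 3)
    rw [Nat.mul_comm] at this
    exact this.symm
  have hq1 : 1 ≤ n / (K + 3) := (Nat.one_le_div_iff (by omega)).2 hn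
  have hf : f (K + 3) (R + 3) n = n / (K + 3) * (K + 3).choose (R + 3) +
      (n % (K + 3)).choose (R + 3) := rfl
  unfold Good at hb
  set q := n / (K + 3) with hq
  set b := n % (K + 3) with hbdef
  set C := (K + 2).choose (R + 2) with hC
  have h3 : (K + 1) * (q * ((K + 3) * C) + (R + 3) * b.choose (R + 3)) < C * (K - R) * n := by
    calc (K + 1) * (q * ((K + 3) * C) + (R + 3) * b.choose (R + 3))
        = (K + 1) * ((R + 3) * f (K + 3) (R + 3) n) := by rw [hf, e1]; ring
      _ < (K + 1) * ((R + 3) * N) :=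
          Nat.mul_lt_mul_of_pos_left (Nat.mul_lt_mul_of_pos_left h2 (by omega)) (by omega)
      _ ≤ (K + 1).choose (R + 2) * ((K + 2) * n) := h1
      _ = ((K + 1).choose (R + 2) * (K + 2)) * n := by ring
      _ = _ := by rw [e2]
  obtain ⟨s, rfl⟩ : ∃ s, K = R + s := ⟨K - R, by omega⟩
  have e4 : R + s - R = s := by omega
  rw [e4] at h3 hb
  have h6 : C * s * n = s * (q * ((R + s + 3) * C)) + b * s * C := by
    conv_lhs => rw [h5]
    ring
  have h7 : (R + s + 1) * (q * ((R + s + 3) * C) + (R + 3) * b.choose (R + 3)) =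
      s * (q * ((R + s + 3) * C)) + (R + 1) * (q * ((R + s + 3) * C)) +
      (R + s + 1) * ((R + 3) * b.choose (R + 3)) := by ring
  have h8 : (R + 1) * (1 * ((R + s + 3) * C)) ≤ (R + 1) * (q * ((R + s + 3) * C)) :=
    Nat.mul_le_mul_left _ (Nat.mul_le_mul_right _ hq1)
  have h9 : (R + s + 3) * (R + 1) * C = (R + 1) * (1 * ((R + s + 3) * C)) := by ring
  rw [h6, h7] at h3
  rw [h9] at hb
  omega

/-- The reduction for non-stars, with the estimate. -/
theorem reduce5 {V : Type*} [DecidableEq V] (G : SimpleGraph V) [DecidableRel G.Adj]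
    {W : Type} [Fintype W] (T : SimpleGraph W) (hT : T.IsTree) (K R : ℕ)
    (hR : R ≤ K) (hW : Fintype.card W = K + 4)
    (hns : ∀ p, ∃ w, w ≠ p ∧ ¬ T.Adj p w) (S : Finset V) (hS : NoCopy G T S)
    (hb : Good K R (S.card % (K + 3)))
    (h : f (K + 3) (R + 3) S.card < (cl G (R + 3) S).card) : False := by
  obtain ⟨a, S', h1, h2, h3, h4⟩ := split2 G K (R + 3) _ S rfl
  have hb3 := bound3 G T hT K R hW hns S' (NoCopy.mono G T h1 hS) h3
  have hf : f (K + 3) (R + 3) S.card = a * (K + 3).choose (R + 3) + f (K + 3) (R + 3) S'.card := by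
    rw [h2, f_add _ _ _ _ (by omega)]
  have h8 : f (K + 3) (R + 3) S'.card < (cl G (R + 3) S').card := by omega
  have hmod : S.card % (K + 3) = S'.card % (K + 3) := by
    rw [h2, Nat.add_mul_mod_self_right]
  refine num5 K R _ _ hR ?_ (by rw [← hmod]; exact hb) hb3 h8
  by_contra hcon
  push Not at hcon
  have h9 := cl_le_choose G (R + 3) S'
  have h10 : f (K + 3) (R + 3) S'.card = S'.card.choose (R + 3) := by
    unfold f
    rw [Nat.div_eq_of_lt hcon, Nat.mod_eq_of_lt hcon]
    omega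
  omega

/-- the linear condition -/
theorem good_of_lin (K R b : ℕ) (h : b * (K - R) ≤ (K + 3) * (R + 1)) : Good K R b :=
  (Nat.mul_le_mul_right _ h).trans (Nat.le_add_right _ _)

/-- the remainder `k - 2` -/
theorem good_last (K R : ℕ) (hR : R ≤ K) : Good K R (K + 2) := by
  unfold Good
  have e0 : (K + 2) * (K + 1).choose (R + 2) = (K + 2).choose (R + 3) * (R + 3) :=
    Nat.add_one_mul_choose_eq (K + 1) (R + 2)
  have e2 : (K + 1).choose (R + 2) * (K + 2) = (K + 2).choose (R + 2) * (K + 2 - (R + 2)) :=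
    Nat.choose_mul_succ_eq (K + 1) (R + 2)
  obtain ⟨s, rfl⟩ : ∃ s, K = R + s := ⟨K - R, by omega⟩
  have e3 : R + s + 2 - (R + 2) = s := by omega
  have e4 : R + s - R = s := by omega
  rw [e3] at e2
  rw [e4]
  have h1 : (R + 3) * (R + s + 2).choose (R + 3) = s * (R + s + 2).choose (R + 2) := by
    rw [Nat.mul_comm, ← e0, Nat.mul_comm, e2, Nat.mul_comm]
  rw [h1]
  have h2 : (R + s + 2) * s ≤ (R + s + 3) * (R + 1) + (R + s + 1) * s := by nlinarith
  calc (R + s + 2) * s * (R + s + 2).choose (R + 2)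
      ≤ ((R + s + 3) * (R + 1) + (R + s + 1) * s) * (R + s + 2).choose (R + 2) :=
        Nat.mul_le_mul_right _ h2
    _ = _ := by ring

/-- all remainders if `k ≤ 2 r` -/
theorem good_half (K R b : ℕ) (hR : R ≤ K) (hk : K + 4 ≤ 2 * (R + 3)) (hb : b < K + 3) :
    Good K R b := by
  obtain ⟨s, rfl⟩ : ∃ s, K = R + s := ⟨K - R, by omega⟩
  have hs : s ≤ R + 2 := by omega
  by_cases h1 : s ≤ R + 1
  · apply good_of_lin
    have e4 : R + s - R = s := by omega
    rw [e4]
    exact Nat.mul_le_mul (by omega) h1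
  · have hs2 : s = R + 2 := by omega
    subst hs2
    have e4 : R + (R + 2) - R = R + 2 := by omega
    by_cases h2 : b = R + (R + 2) + 2
    · rw [h2]
      exact good_last _ _ (by omega)
    by_cases h3 : b = R + (R + 2) + 1
    · rw [h3]
      unfold Good
      rw [e4]
      have g1 : (2 * R + 3).choose (R + 3) * (R + 3) = (2 * R + 3).choose (R + 2) * (2 * R + 3 - (R + 2)) :=
        Nat.choose_succ_right_eq (2 * R + 3) (R + 2)
      have g2 : 2 * R + 3 - (R + 2) = R + 1 := by omega
      have g3 : (2 * R + 3).choose (R + 1) = (2 * R + 3).choose (R + 2) := by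
        rw [← Nat.choose_symm_of_eq_add (show 2 * R + 3 = (R + 1) + (R + 2) by omega)]
      have g4 : (2 * R + 4).choose (R + 2) = (2 * R + 3).choose (R + 1) + (2 * R + 3).choose (R + 2) :=
        Nat.choose_succ_succ (2 * R + 3) (R + 1)
      have g5 : R + (R + 2) + 2 = 2 * R + 4 := by omega
      have g6 : R + (R + 2) + 1 = 2 * R + 3 := by omega
      have g7 : R + (R + 2) + 3 = 2 * R + 5 := by omega
      rw [g5, g6, g7, g4, g3]
      rw [g2] at g1
      rw [Nat.mul_comm (R + 3), g1]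
      nlinarith [Nat.zero_le ((2 * R + 3).choose (R + 2)), Nat.zero_le (R * (2 * R + 3).choose (R + 2)),
        Nat.zero_le (R * R * (2 * R + 3).choose (R + 2))]
    · apply good_of_lin
      rw [e4]
      have h4 : b ≤ 2 * R + 2 := by omega
      calc b * (R + 2) ≤ (2 * R + 2) * (R + 2) := Nat.mul_le_mul_right _ h4
        _ ≤ _ := by nlinarith

end H802.TreeCl
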