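import Pool.Graph.R_seed8.H223R3.Tree.Blocks

set_option autoImplicit false

namespace H802.TreeCl

open Finset H223R3.Tree

variable {V : Type*} [DecidableEq V] (G : SimpleGraph V) [DecidableRel G.Adj]

/-- neighbours of `v` inside `S` -/
def nb (S : Finset V) (v : V) : Finset V := S.filter (fun w => G.Adj v w)

omit [DecidableEq V] in
theorem mem_nb (S : Finset V) (v w : V) : w ∈ nb G S v ↔ w ∈ S ∧ G.Adj v w := by
  rw [nb, Finset.mem_filter]

/-- A vertex of degree at least `k - 1`: its neighbourhood contains no copy of some tree on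
`k - 2` vertices. -/
theorem high {W : Type} [Fintype W] (T : SimpleGraph W) (hT : T.IsTree) (K R : ℕ)
    (hW : Fintype.card W = K + 4) (S : Finset V) (hS : NoCopy G T S) (v : V) (hv : v ∈ S)
    (hd : K + 3 ≤ (nb G S v).card) :
    (K + 1) * (cl G (R + 2) (nb G S v)).card ≤
      (K + 1).choose (R + 2) * (nb G S v).card := by
  classical
  obtain ⟨l, p, ⟨hlp, hup⟩, -, -⟩ := remove_leaf T hT (K + 3) (by omega) hW
  let U : Set W := ({l, p} : Set W)ᶜ
  have hne : l ≠ p := hlp.ne
  have hU : ∀ w, w ∈ U ↔ w ≠ l ∧ w ≠ p := by
    intro w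
    simp [U, not_or]
  have hcardU : Fintype.card U = K + 2 := by
    have h1 : Fintype.card U = Fintype.card W - Fintype.card ({l, p} : Set W) :=
      Fintype.card_compl_set _
    have h2 : Fintype.card ({l, p} : Set W) = 2 := by
      rw [← Set.toFinset_card]
      simp [Finset.card_pair hne]
    rw [h1, h2, hW]
    omega
  have hnon : Nonempty U := Fintype.card_pos_iff.1 (by omega)
  have hconn : (⊤ : SimpleGraph U).Connected := SimpleGraph.connected_top
  obtain ⟨T2, hT2, -, htree⟩ := hconn.exists_isTree_le_of_le_of_isAcyclic
    (le_top : T.induce U ≤ ⊤) (hT.isAcyclic.induce U)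
  have hno : NoCopy G T2 (nb G S v) := by
    rintro ⟨f, f1, f2, f3⟩
    have hz : ∃ z ∈ nb G S v, ∀ w, f w ≠ z := by
      by_contra hcon
      push Not at hcon
      have h1 : (nb G S v).card ≤ (univ.image f).card := card_le_card (fun z hz => by
        obtain ⟨w, hw⟩ := hcon z hz
        exact mem_image.2 ⟨w, mem_univ _, hw⟩)
      have h2 : (univ.image f).card ≤ K + 2 := (card_image_le).trans (by
        rw [card_univ, hcardU])
      omega
    obtain ⟨z, hz, hzf⟩ := hz
    have hf2 : ∀ w, f w ∈ S ∧ G.Adj v (f w) := fun w => (mem_nb G S v _).1 (f2 w)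
    have hz2 := (mem_nb G S v _).1 hz
    apply hS
    refine ⟨fun w => if h : w ∈ U then f ⟨w, h⟩ else if w = l then z else v, ?_, ?_, ?_⟩
    · intro a b hab
      simp only at hab
      by_cases ha : a ∈ U
      · by_cases hb : b ∈ U
        · rw [dif_pos ha, dif_pos hb] at hab
          exact congrArg Subtype.val (f1 hab)
        · rw [dif_pos ha, dif_neg hb] at hab
          split_ifs at hab with h1
          · exact absurd hab (hzf _)
          · exact absurd hab.symm (hf2 ⟨a, ha⟩).2.ne
      · by_cases hb : b ∈ U
        · rw [dif_neg ha, dif_pos hb] at hab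
          split_ifs at hab with h1
          · exact absurd hab.symm (hzf _)
          · exact absurd hab (hf2 ⟨b, hb⟩).2.ne
        · rw [dif_neg ha, dif_neg hb] at hab
          rw [hU] at ha hb
          by_cases ha1 : a = l
          · by_cases hb1 : b = l
            · rw [ha1, hb1]
            · rw [if_pos ha1, if_neg hb1] at hab
              exact absurd hab.symm hz2.2.ne
          · by_cases hb1 : b = l
            · rw [if_neg ha1, if_pos hb1] at hab
              exact absurd hab hz2.2.ne
            · have h3 : a = p := by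
                by_contra h; exact ha ⟨ha1, h⟩
              have h4 : b = p := by
                by_contra h; exact hb ⟨hb1, h⟩
              rw [h3, h4]
    · intro w
      simp only
      split_ifs with h h'
      · exact (hf2 _).1
      · exact hz2.1
      · exact hv
    · intro a b hab
      simp only
      by_cases ha : a ∈ U
      · by_cases hb : b ∈ U
        · rw [dif_pos ha, dif_pos hb]
          exact f3 _ _ (hT2 hab)
        · rw [dif_pos ha, dif_neg hb]
          rw [hU] at ha
          have hb1 : b ≠ l := by
            intro h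
            rw [h] at hab
            exact ha.2 (hup a hab.symm)
          rw [if_neg hb1]
          exact (hf2 _).2.symm
      · by_cases hb : b ∈ U
        · rw [dif_neg ha, dif_pos hb]
          rw [hU] at hb
          have ha1 : a ≠ l := by
            intro h
            rw [h] at hab
            exact hb.2 (hup b hab)
          rw [if_neg ha1]
          exact (hf2 _).2
        · rw [dif_neg ha, dif_neg hb]
          rw [hU] at ha hb
          by_cases ha1 : a = l
          · have hb1 : b ≠ l := fun h => hab.ne (by rw [ha1, h])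
            rw [if_pos ha1, if_neg hb1]
            exact hz2.2.symm
          · have h3 : a = p := by
              by_contra h; exact ha ⟨ha1, h⟩
            have hb1 : b = l := by
              by_contra h
              have h4 : b = p := by
                by_contra h'; exact hb ⟨h, h'⟩
              exact hab.ne (by rw [h3, h4])
            rw [if_neg ha1, if_pos hb1]
            exact hz2.2
  have h := clique_bound G (R + 1) (K + 2) (by omega) U T2 htree hcardU (nb G S v) hno
  simpa using h

theorem cl_le_choose (r : ℕ) (N : Finset V) : (cl G r N).card ≤ N.card.choose r := by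
  rw [← Finset.card_powersetCard]
  exact Finset.card_le_card (Finset.filter_subset _ _)

theorem choose_ratio (D d j : ℕ) (h : d ≤ D) :
    D * d.choose (j + 1) ≤ D.choose (j + 1) * d := by
  rcases Nat.eq_zero_or_pos d with rfl | hd
  · simp
  obtain ⟨d', rfl⟩ : ∃ d', d = d' + 1 := ⟨d - 1, by omega⟩
  obtain ⟨D', rfl⟩ : ∃ D', D = D' + 1 := ⟨D - 1, by omega⟩
  have h1 : (d' + 1) * d'.choose j = (d' + 1).choose (j + 1) * (j + 1) :=
    Nat.add_one_mul_choose_eq d' j
  have h2 : (D' + 1) * D'.choose j = (D' + 1).choose (j + 1) * (j + 1) :=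
    Nat.add_one_mul_choose_eq D' j
  have h3 : d'.choose j ≤ D'.choose j := Nat.choose_le_choose j (by omega)
  have h4 : (j + 1) * ((D' + 1) * (d' + 1).choose (j + 1)) ≤
      (j + 1) * ((D' + 1).choose (j + 1) * (d' + 1)) := by
    calc (j + 1) * ((D' + 1) * (d' + 1).choose (j + 1))
        = (D' + 1) * ((d' + 1).choose (j + 1) * (j + 1)) := by ring
      _ = (D' + 1) * ((d' + 1) * d'.choose j) := by rw [h1]
      _ ≤ (D' + 1) * ((d' + 1) * D'.choose j) :=
          Nat.mul_le_mul_left _ (Nat.mul_le_mul_left _ h3)
      _ = ((D' + 1) * D'.choose j) * (d' + 1) := by ring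
      _ = ((D' + 1).choose (j + 1) * (j + 1)) * (d' + 1) := by rw [h2]
      _ = _ := by ring
  exact Nat.le_of_mul_le_mul_left h4 (by omega)

/-- a set of at most `D` vertices -/
theorem low (D R : ℕ) (N : Finset V) (h : N.card ≤ D) :
    D * (cl G (R + 2) N).card ≤ D.choose (R + 2) * N.card :=
  (Nat.mul_le_mul_left _ (cl_le_choose G (R + 2) N)).trans (choose_ratio D N.card (R + 1) h)

/-- a set which is not a clique -/
theorem mid (R K : ℕ) (N : Finset V) (hN : N.card = K + 2)
    (h : ∃ a ∈ N, ∃ b ∈ N, a ≠ b ∧ ¬ G.Adj a b) :
    (cl G (R + 2) N).card + K.choose R ≤ (K + 2).choose (R + 2) := by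
  obtain ⟨a, ha, b, hb, hab, hadj⟩ := h
  let B : Finset (Finset V) :=
    (((N.erase a).erase b).powersetCard R).image (fun Q => insert a (insert b Q))
  have hb' : b ∈ N.erase a := mem_erase.2 ⟨hab.symm, hb⟩
  have hBcard : B.card = K.choose R := by
    have h1 : ((N.erase a).erase b).card = K := by
      rw [card_erase_of_mem hb', card_erase_of_mem ha, hN]; omega
    rw [← h1, ← card_powersetCard]
    apply card_image_of_injOn
    intro Q hQ Q' hQ' hQQ
    rw [mem_coe, mem_powersetCard] at hQ hQ'
    have e : ∀ P : Finset V, P ⊆ (N.erase a).erase b →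
        ((insert a (insert b P)).erase a).erase b = P := by
      intro P hP
      have ha1 : a ∉ insert b P := by
        rw [mem_insert]
        rintro (h | h)
        · exact hab h
        · have := hP h
          rw [mem_erase, mem_erase] at this
          exact this.2.1 rfl
      have hb1 : b ∉ P := by
        intro h
        have := hP h
        rw [mem_erase] at this
        exact this.1 rfl
      rw [erase_insert ha1, erase_insert hb1]
    have := congrArg (fun P => (P.erase a).erase b) hQQ
    simp only at this
    rwa [e Q hQ.1, e Q' hQ'.1] at this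
  have hdisj : Disjoint (cl G (R + 2) N) B := by
    rw [disjoint_left]
    intro Q hQ hQB
    rw [mem_cl] at hQ
    rw [mem_image] at hQB
    obtain ⟨P, _, rfl⟩ := hQB
    exact hadj (hQ.2 a (mem_insert_self _ _) b (mem_insert_of_mem (mem_insert_self _ _)) hab)
  have hsub : cl G (R + 2) N ∪ B ⊆ N.powersetCard (R + 2) := by
    apply union_subset (filter_subset _ _)
    intro Q hQ
    rw [mem_image] at hQ
    obtain ⟨P, hP, rfl⟩ := hQ
    rw [mem_powersetCard] at hP
    have hPN : P ⊆ N := fun x hx => mem_of_mem_erase (mem_of_mem_erase (hP.1 hx))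
    have ha1 : a ∉ insert b P := by
      rw [mem_insert]
      rintro (h | h)
      · exact hab h
      · have := hP.1 h
        rw [mem_erase, mem_erase] at this
        exact this.2.1 rfl
    have hb1 : b ∉ P := by
      intro h
      have := hP.1 h
      rw [mem_erase] at this
      exact this.1 rfl
    rw [mem_powersetCard]
    refine ⟨insert_subset ha (insert_subset hb hPN), ?_⟩
    rw [card_insert_of_notMem ha1, card_insert_of_notMem hb1, hP.2]
  have := card_le_card hsub
  rw [card_union_of_disjoint hdisj, hBcard, card_powersetCard, hN] at this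
  exact this

theorem num1 (K R : ℕ) (hR : R ≤ K) :
    (K + 2) * (K + 1).choose (R + 2) + (K + 1) * K.choose R ≤
      (K + 1) * (K + 2).choose (R + 2) := by
  have h1 : (K + 2).choose (R + 2) = (K + 1).choose (R + 1) + (K + 1).choose (R + 2) :=
    Nat.choose_succ_succ' (K + 1) (R + 1)
  have h2 : (K + 1) * K.choose R = (K + 1).choose (R + 1) * (R + 1) :=
    Nat.add_one_mul_choose_eq K R
  have h3 : (K + 1).choose (R + 2) * (R + 2) = (K + 1).choose (R + 1) * (K + 1 - (R + 1)) :=
    Nat.choose_succ_right_eq (K + 1) (R + 1)
  have h4 : (K + 1).choose (R + 2) ≤ (K + 1).choose (R + 1) * (K - R) := by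
    have e : K + 1 - (R + 1) = K - R := by omega
    rw [e] at h3
    rw [← h3]
    exact Nat.le_mul_of_pos_right _ (by omega)
  obtain ⟨s, rfl⟩ : ∃ s, K = R + s := ⟨K - R, by omega⟩
  have e : R + s - R = s := by omega
  rw [e] at h4
  rw [h2, h1]
  nlinarith [h4]

/-- The main estimate: `G[S]` has no copy of `T` and no clique on `k - 1 = K + 3` vertices. -/
theorem bound {W : Type} [Fintype W] (T : SimpleGraph W) (hT : T.IsTree) (K R : ℕ)
    (hR : R ≤ K) (hW : Fintype.card W = K + 4) (S : Finset V) (hS : NoCopy G T S)
    (hK : cl G (K + 3) S = ∅) :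
    (R + 3) * (cl G (R + 3) S).card + K.choose R * S.card ≤
      (K + 2).choose (R + 2) * S.card := by
  classical
  have hle : K.choose R ≤ (K + 2).choose (R + 2) := by
    have h1 : (K + 2).choose (R + 2) = (K + 1).choose (R + 1) + (K + 1).choose (R + 2) :=
      Nat.choose_succ_succ' (K + 1) (R + 1)
    have h2 : (K + 1).choose (R + 1) = K.choose R + K.choose (R + 1) :=
      Nat.choose_succ_succ' K R
    omega
  obtain ⟨A, hA⟩ : ∃ A, (K + 2).choose (R + 2) = A + K.choose R :=
    ⟨_, (Nat.sub_add_cancel hle).symm⟩
  have hn1 := num1 K R hR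
  have hv : ∀ v ∈ S, (K + 2) * (cl G (R + 2) (nb G S v)).card ≤ A * (nb G S v).card := by
    intro v hv
    have hrate : (K + 1) * (cl G (R + 2) (nb G S v)).card ≤
        (K + 1).choose (R + 2) * (nb G S v).card →
        (K + 2) * (cl G (R + 2) (nb G S v)).card ≤ A * (nb G S v).card := by
      intro h
      have h1 : (K + 2) * (K + 1).choose (R + 2) ≤ (K + 1) * A := by
        rw [hA] at hn1
        nlinarith [hn1]
      have h2 : (K + 1) * ((K + 2) * (cl G (R + 2) (nb G S v)).card) ≤
          (K + 1) * (A * (nb G S v).card) := by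
        calc (K + 1) * ((K + 2) * (cl G (R + 2) (nb G S v)).card)
            = (K + 2) * ((K + 1) * (cl G (R + 2) (nb G S v)).card) := by ring
          _ ≤ (K + 2) * ((K + 1).choose (R + 2) * (nb G S v).card) :=
              Nat.mul_le_mul_left _ h
          _ = ((K + 2) * (K + 1).choose (R + 2)) * (nb G S v).card := by ring
          _ ≤ ((K + 1) * A) * (nb G S v).card := Nat.mul_le_mul_right _ h1
          _ = _ := by ring
      exact Nat.le_of_mul_le_mul_left h2 (by omega)
    rcases Nat.lt_trichotomy (nb G S v).card (K + 2) with hlt | heq | hgt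
    · exact hrate (low G (K + 1) R (nb G S v) (by omega))
    · -- degree exactly `k - 2`
      have hne : ∃ a ∈ nb G S v, ∃ b ∈ nb G S v, a ≠ b ∧ ¬ G.Adj a b := by
        by_contra hcon
        push Not at hcon
        have hmem : insert v (nb G S v) ∈ cl G (K + 3) S := by
          rw [mem_cl]
          have hvn : v ∉ nb G S v := by
            rw [mem_nb]
            exact fun h => h.2.ne rfl
          refine ⟨⟨?_, ?_⟩, ?_⟩
          · apply insert_subset hv
            intro x hx
            exact ((mem_nb G S v x).1 hx).1
          · rw [card_insert_of_notMem hvn, heq]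
          · intro x hx y hy hxy
            rw [mem_insert] at hx hy
            rcases hx with rfl | hx
            · rcases hy with rfl | hy
              · exact absurd rfl hxy
              · exact ((mem_nb G S x y).1 hy).2
            · rcases hy with rfl | hy
              · exact ((mem_nb G S y x).1 hx).2.symm
              · exact hcon x hx y hy hxy
        rw [hK] at hmem
        exact absurd hmem (notMem_empty _)
      have h := mid G R K (nb G S v) heq hne
      rw [heq]
      have h1 : (cl G (R + 2) (nb G S v)).card ≤ A := by omega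
      calc (K + 2) * (cl G (R + 2) (nb G S v)).card ≤ (K + 2) * A := Nat.mul_le_mul_left _ h1
        _ = _ := by ring
    · exact hrate (high G T hT K R hW S hS v hv (by omega))
  have h1 := cl_succ G (R + 2) S
  have h2 := es_inside G T hT (K + 4) (by omega) hW S hS
  have e1 : K + 4 - 2 = K + 2 := by omega
  rw [e1] at h2
  have h3 : (K + 2) * ((R + 3) * (cl G (R + 3) S).card) ≤ (K + 2) * (A * S.card) := by
    calc (K + 2) * ((R + 3) * (cl G (R + 3) S).card)
        ≤ (K + 2) * ∑ v ∈ S, (cl G (R + 2) (S.filter (fun w => G.Adj v w))).card :=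
          Nat.mul_le_mul_left _ h1
      _ = ∑ v ∈ S, (K + 2) * (cl G (R + 2) (nb G S v)).card := by
          rw [Finset.mul_sum]; rfl
      _ ≤ ∑ v ∈ S, A * (nb G S v).card := Finset.sum_le_sum hv
      _ = A * ∑ v ∈ S, (S.filter (fun w => G.Adj v w)).card := by
          rw [Finset.mul_sum]; rfl
      _ ≤ A * ((K + 2) * S.card) := Nat.mul_le_mul_left _ h2
      _ = _ := by ring
  have h4 := Nat.le_of_mul_le_mul_left h3 (by omega)
  have h5 : (A + K.choose R) * S.card = A * S.card + K.choose R * S.card := Nat.add_mul _ _ _
  rw [hA, h5]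
  omega

end H802.TreeCl
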