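import Pool.Agent.H802.TreeCl.Emb

set_option autoImplicit false

namespace H802.TreeCl

open Finset H223R3.Tree

section avg

variable {R : Type*} [Fintype R] [DecidableEq R]

theorem two_trans (c d c' d' : R) (h : c ≠ d) (h' : c' ≠ d') :
    ∃ τ : Equiv.Perm R, τ c = c' ∧ τ d = d' := by
  have h1 : Equiv.swap c c' d ≠ c' := by
    intro h2
    have h3 : Equiv.swap c c' c = c' := Equiv.swap_apply_left _ _
    exact h ((Equiv.swap c c').injective (h3.trans h2.symm))
  refine ⟨Equiv.swap (Equiv.swap c c' d) d' * Equiv.swap c c', ?_, ?_⟩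
  · rw [Equiv.Perm.mul_apply, Equiv.swap_apply_left]
    exact Equiv.swap_apply_of_ne_of_ne h1.symm h'
  · rw [Equiv.Perm.mul_apply, Equiv.swap_apply_left]

/-- one-point average over all permutations -/
theorem avg1 (F : R → ℚ) (c : R) :
    (Fintype.card R : ℚ) * ∑ σ : Equiv.Perm R, F (σ c) =
      (Fintype.card (Equiv.Perm R) : ℚ) * ∑ a, F a := by
  have h1 : ∀ c' : R, ∑ σ : Equiv.Perm R, F (σ c') = ∑ σ : Equiv.Perm R, F (σ c) := by
    intro c'
    rw [← Equiv.sum_comp (Equiv.mulRight (Equiv.swap c' c)) (fun σ : Equiv.Perm R => F (σ c'))]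
    apply sum_congr rfl
    intro σ _
    show F ((σ * Equiv.swap c' c) c') = F (σ c)
    rw [Equiv.Perm.mul_apply, Equiv.swap_apply_left]
  have h2 : ∑ c' : R, ∑ σ : Equiv.Perm R, F (σ c') =
      (Fintype.card R : ℚ) * ∑ σ : Equiv.Perm R, F (σ c) := by
    rw [sum_congr rfl (fun c' _ => h1 c'), sum_const, card_univ, nsmul_eq_mul]
  rw [← h2, sum_comm]
  have h3 : ∀ σ : Equiv.Perm R, ∑ c' : R, F (σ c') = ∑ a, F a := fun σ => Equiv.sum_comp σ F
  rw [sum_congr rfl (fun σ _ => h3 σ), sum_const, card_univ, nsmul_eq_mul]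

/-- two-point average over all permutations -/
theorem avg2 (F : R → R → ℚ) (c d : R) (h : c ≠ d) :
    ((univ : Finset R).offDiag.card : ℚ) * ∑ σ : Equiv.Perm R, F (σ c) (σ d) =
      (Fintype.card (Equiv.Perm R) : ℚ) * ∑ p ∈ (univ : Finset R).offDiag, F p.1 p.2 := by
  have h1 : ∀ p ∈ (univ : Finset R).offDiag, ∑ σ : Equiv.Perm R, F (σ p.1) (σ p.2) =
      ∑ σ : Equiv.Perm R, F (σ c) (σ d) := by
    intro p hp
    rw [mem_offDiag] at hp
    obtain ⟨τ, h3, h4⟩ := two_trans p.1 p.2 c d hp.2.2 h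
    rw [← Equiv.sum_comp (Equiv.mulRight τ) (fun σ : Equiv.Perm R => F (σ p.1) (σ p.2))]
    apply sum_congr rfl
    intro σ _
    show F ((σ * τ) p.1) ((σ * τ) p.2) = F (σ c) (σ d)
    rw [Equiv.Perm.mul_apply, Equiv.Perm.mul_apply, h3, h4]
  have h2 : ∑ p ∈ (univ : Finset R).offDiag, ∑ σ : Equiv.Perm R, F (σ p.1) (σ p.2) =
      ((univ : Finset R).offDiag.card : ℚ) * ∑ σ : Equiv.Perm R, F (σ c) (σ d) := by
    rw [sum_congr rfl h1, sum_const, nsmul_eq_mul]
  rw [← h2, sum_comm]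
  have h3 : ∀ σ : Equiv.Perm R, ∑ p ∈ (univ : Finset R).offDiag, F (σ p.1) (σ p.2) =
      ∑ p ∈ (univ : Finset R).offDiag, F p.1 p.2 := by
    intro σ
    apply Finset.sum_bij (fun p _ => (σ p.1, σ p.2))
    · intro p hp
      rw [mem_offDiag] at hp ⊢
      exact ⟨mem_univ _, mem_univ _, fun h => hp.2.2 (σ.injective h)⟩
    · intro p _ q _ hpq
      rw [Prod.ext_iff] at hpq
      exact Prod.ext (σ.injective hpq.1) (σ.injective hpq.2)
    · intro p hp
      rw [mem_offDiag] at hp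
      refine ⟨(σ.symm p.1, σ.symm p.2), ?_, ?_⟩
      · rw [mem_offDiag]
        exact ⟨mem_univ _, mem_univ _, fun h => hp.2.2 (σ.symm.injective h)⟩
      · simp
    · intro p _
      rfl
  rw [sum_congr rfl (fun σ _ => h3 σ), sum_const, card_univ, nsmul_eq_mul]

end avg

/-- a subset with small sum -/
theorem small_sub {W : Type*} [DecidableEq W] (d : W → ℕ) (h : ℕ) : ∀ (n : ℕ) (I : Finset W),
    I.card = n → ∑ i ∈ I, d i ≤ 2 * I.card → h ≤ I.card →
    ∃ A ⊆ I, A.card = h ∧ ∑ i ∈ A, d i ≤ 2 * h := by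
  intro n
  induction n with
  | zero =>
    intro I hI hs hh
    exact ⟨I, le_rfl, by omega, by rw [hI] at hs hh; omega⟩
  | succ n ih =>
    intro I hI hs hh
    rcases Nat.lt_or_ge h I.card with hlt | hge
    · have hne : I.Nonempty := by rw [← card_pos]; omega
      obtain ⟨w, hw, hmax⟩ := exists_max_image I d hne
      have h1 : d w + ∑ i ∈ I.erase w, d i = ∑ i ∈ I, d i := add_sum_erase I d hw
      have h2 : (I.erase w).card = n := by rw [card_erase_of_mem hw, hI]; omega
      have h3 : ∑ i ∈ I.erase w, d i ≤ 2 * (I.erase w).card := by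
        rcases Nat.lt_or_ge (d w) 2 with h4 | h4
        · calc ∑ i ∈ I.erase w, d i ≤ ∑ i ∈ I.erase w, 2 :=
              sum_le_sum (fun i hi => (hmax i (mem_of_mem_erase hi)).trans (by omega))
            _ = 2 * (I.erase w).card := by rw [sum_const, smul_eq_mul, mul_comm]
        · rw [h2]; rw [hI] at hs; omega
      obtain ⟨A, hA1, hA2, hA3⟩ := ih (I.erase w) h2 h3 (by omega)
      exact ⟨A, hA1.trans (erase_subset _ _), hA2, hA3⟩
    · exact ⟨I, le_rfl, by omega, by omega⟩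

/-- ordered adjacent pairs outside an independent set `J` -/
theorem pairs_out {W : Type*} [Fintype W] [DecidableEq W] (T : SimpleGraph W) [DecidableRel T.Adj]
    (J : Finset W) (hJ : ∀ a ∈ J, ∀ b ∈ J, ¬ T.Adj a b) :
    2 * ∑ a ∈ J, T.degree a + ∑ a ∈ Jᶜ, ∑ b ∈ Jᶜ, (if T.Adj a b then 1 else 0) =
      2 * T.edgeFinset.card := by
  have hdeg : ∀ a, T.degree a = ∑ b ∈ J, (if T.Adj a b then 1 else 0) +
      ∑ b ∈ Jᶜ, (if T.Adj a b then 1 else 0) := by
    intro a
    rw [sum_add_sum_compl J (fun b => if T.Adj a b then 1 else 0), ← card_filter,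
      ← SimpleGraph.card_neighborFinset_eq_degree]
    congr 1
    ext b
    rw [SimpleGraph.mem_neighborFinset, mem_filter]
    simp
  rw [← T.sum_degrees_eq_twice_card_edges, ← sum_add_sum_compl J (fun a => T.degree a)]
  have h1 : ∑ a ∈ Jᶜ, T.degree a = ∑ a ∈ Jᶜ, ∑ b ∈ J, (if T.Adj a b then 1 else 0) +
      ∑ a ∈ Jᶜ, ∑ b ∈ Jᶜ, (if T.Adj a b then 1 else 0) := by
    rw [← sum_add_distrib]
    exact sum_congr rfl (fun a _ => hdeg a)
  have h2 : ∑ a ∈ Jᶜ, ∑ b ∈ J, (if T.Adj a b then 1 else 0) = ∑ b ∈ J, T.degree b := by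
    rw [sum_comm]
    apply sum_congr rfl
    intro b hb
    rw [hdeg b]
    have h3 : ∑ c ∈ J, (if T.Adj b c then 1 else 0) = 0 := by
      apply sum_eq_zero
      intro c hc
      rw [if_neg (hJ b hb c hc)]
    rw [h3, Nat.zero_add]
    apply sum_congr rfl
    intro a _
    by_cases h : T.Adj a b
    · rw [if_pos h, if_pos h.symm]
    · rw [if_neg h, if_neg (fun h' => h h'.symm)]
  rw [h1, h2]
  ring

section pack

variable {V : Type*} [DecidableEq V] (G : SimpleGraph V) [DecidableRel G.Adj]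

/-- number of non-neighbours of `a` in `R` -/
def eR (R : Finset V) (a : V) : ℕ := (R.filter (fun b => b ≠ a ∧ ¬ G.Adj a b)).card

theorem miss_eq (Q : Finset V) : (miss G Q).card = ∑ a ∈ Q, eR G Q a := by
  rw [miss, card_filter, sum_product]
  apply sum_congr rfl
  intro a _
  rw [eR, card_filter]
  apply sum_congr rfl
  intro b _
  simp only [ne_comm]

/-- lower bound for the missing pairs -/
theorem miss_ge (Q : Finset V) (u : V) (hu : u ∈ Q) (U R : Finset V)
    (hU : U = (Q.erase u).filter (fun a => ¬ G.Adj u a))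
    (hR : R = (Q.erase u).filter (fun a => G.Adj u a)) :
    2 * U.card + 2 * ∑ a ∈ U, eR G R a + ∑ a ∈ R, eR G R a ≤ (miss G Q).card := by
  have hUm : ∀ a, a ∈ U ↔ (a ≠ u ∧ a ∈ Q) ∧ ¬ G.Adj u a := by
    intro a; rw [hU, mem_filter, mem_erase]
  have hRm : ∀ a, a ∈ R ↔ (a ≠ u ∧ a ∈ Q) ∧ G.Adj u a := by
    intro a; rw [hR, mem_filter, mem_erase]
  have hdisj : Disjoint U R := by
    rw [disjoint_left]
    intro a h1 h2
    exact ((hUm a).1 h1).2 ((hRm a).1 h2).2
  have hQ : Q = insert u (U ∪ R) := by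
    ext a
    rw [mem_insert, mem_union, hUm, hRm]
    constructor
    · intro h
      by_cases h1 : a = u
      · exact Or.inl h1
      · right
        by_cases h2 : G.Adj u a
        · exact Or.inr ⟨⟨h1, h⟩, h2⟩
        · exact Or.inl ⟨⟨h1, h⟩, h2⟩
    · rintro (rfl | h | h)
      · exact hu
      · exact h.1.2
      · exact h.1.2
  have huUR : u ∉ U ∪ R := by
    rw [mem_union, hUm, hRm]
    rintro (h | h)
    · exact h.1.1 rfl
    · exact h.1.1 rfl
  have hsplit : ∑ a ∈ Q, eR G Q a = eR G Q u + (∑ a ∈ U, eR G Q a + ∑ a ∈ R, eR G Q a) := by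
    conv_lhs => rw [hQ]
    rw [sum_insert huUR, sum_union hdisj, ← hQ]
  have h1 : U.card ≤ eR G Q u := by
    apply card_le_card
    intro a ha
    rw [hUm] at ha
    rw [mem_filter]
    exact ⟨ha.1.2, ha.1.1, ha.2⟩
  have h2 : U.card + ∑ a ∈ U, eR G R a ≤ ∑ a ∈ U, eR G Q a := by
    rw [card_eq_sum_ones, ← sum_add_distrib]
    apply sum_le_sum
    intro a ha
    have ha' := (hUm a).1 ha
    have h3 : insert u (R.filter (fun b => b ≠ a ∧ ¬ G.Adj a b)) ⊆
        Q.filter (fun b => b ≠ a ∧ ¬ G.Adj a b) := by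
      intro b hb
      rw [mem_insert] at hb
      rw [mem_filter]
      rcases hb with rfl | hb
      · exact ⟨hu, ha'.1.1.symm, fun h => ha'.2 h.symm⟩
      · rw [mem_filter] at hb
        exact ⟨((hRm b).1 hb.1).1.2, hb.2⟩
    have h4 : u ∉ R.filter (fun b => b ≠ a ∧ ¬ G.Adj a b) := by
      rw [mem_filter]
      intro h
      exact ((hRm u).1 h.1).1.1 rfl
    have h5 := card_le_card h3
    rw [card_insert_of_notMem h4] at h5
    show 1 + eR G R a ≤ eR G Q a
    unfold eR
    omega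
  have h3 : ∑ a ∈ U, eR G R a + ∑ a ∈ R, eR G R a ≤ ∑ a ∈ R, eR G Q a := by
    have h4 : ∑ a ∈ U, eR G R a = ∑ a ∈ R, eR G U a := by
      unfold eR
      simp only [card_filter]
      rw [sum_comm]
      apply sum_congr rfl
      intro b _
      apply sum_congr rfl
      intro a _
      simp only [ne_comm, G.adj_comm]
    rw [h4, ← sum_add_distrib]
    apply sum_le_sum
    intro a _
    have h5 : (U.filter (fun b => b ≠ a ∧ ¬ G.Adj a b)) ∪ (R.filter (fun b => b ≠ a ∧ ¬ G.Adj a b)) ⊆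
        Q.filter (fun b => b ≠ a ∧ ¬ G.Adj a b) := by
      rw [← filter_union]
      apply filter_subset_filter
      intro b hb
      rw [mem_union] at hb
      rcases hb with hb | hb
      · exact ((hUm b).1 hb).1.2
      · exact ((hRm b).1 hb).1.2
    have h6 := card_le_card h5
    rw [card_union_of_disjoint (disjoint_filter_filter hdisj)] at h6
    exact h6
  rw [miss_eq, hsplit]
  omega

end pack

end H802.TreeCl
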