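import Pool.Agent.H802.TreeCl.Pack

set_option autoImplicit false

namespace H802.TreeCl

open Finset H223R3.Tree

/-- a good assignment of `A` to `U` -/
theorem assign {V W : Type*} [DecidableEq V] [DecidableEq W] (A : Finset W) (U : Finset V)
    (hAU : A.card = U.card) (d : W → ℕ) (e : V → ℕ) :
    ∃ s : {x // x ∈ A} ≃ {x // x ∈ U},
      U.card * ∑ x : {x // x ∈ A}, d x.1 * e (s x).1 ≤ (∑ x ∈ A, d x) * ∑ a ∈ U, e a := by
  classical
  let s0 : {x // x ∈ A} ≃ {x // x ∈ U} := Finset.equivOfCardEq hAU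
  by_contra hcon
  push Not at hcon
  have h1 : ∀ τ : Equiv.Perm {x // x ∈ U}, (((∑ x ∈ A, d x) * ∑ a ∈ U, e a : ℕ) : ℚ) + 1 ≤
      (U.card : ℚ) * ∑ x : {x // x ∈ A}, (d x.1 : ℚ) * (e (τ (s0 x)).1 : ℚ) := by
    intro τ
    have h := hcon (s0.trans τ)
    have h' : ((∑ x ∈ A, d x) * ∑ a ∈ U, e a) + 1 ≤
      U.card * ∑ x : {x // x ∈ A}, d x.1 * e ((s0.trans τ) x).1 := h
    have h2 : ((((∑ x ∈ A, d x) * ∑ a ∈ U, e a) + 1 : ℕ) : ℚ) ≤
      ((U.card * ∑ x : {x // x ∈ A}, d x.1 * e ((s0.trans τ) x).1 : ℕ) : ℚ) := by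
      exact_mod_cast h'
    push_cast at h2 ⊢
    exact h2
  have h2 := Finset.sum_le_sum (s := (univ : Finset (Equiv.Perm {x // x ∈ U})))
    (fun τ _ => h1 τ)
  rw [sum_const, card_univ, nsmul_eq_mul] at h2
  have h3 : ∑ τ : Equiv.Perm {x // x ∈ U}, (U.card : ℚ) *
      ∑ x : {x // x ∈ A}, (d x.1 : ℚ) * (e (τ (s0 x)).1 : ℚ) =
      (Fintype.card (Equiv.Perm {x // x ∈ U}) : ℚ) *
        (((∑ x ∈ A, d x) * ∑ a ∈ U, e a : ℕ) : ℚ) := by
    rw [← mul_sum, sum_comm]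
    have h4 : ∀ x : {x // x ∈ A}, (U.card : ℚ) *
        ∑ τ : Equiv.Perm {x // x ∈ U}, (d x.1 : ℚ) * (e (τ (s0 x)).1 : ℚ) =
        (d x.1 : ℚ) * ((Fintype.card (Equiv.Perm {x // x ∈ U}) : ℚ) *
          ∑ a : {x // x ∈ U}, (e a.1 : ℚ)) := by
      intro x
      have h5 := avg1 (fun a : {x // x ∈ U} => (e a.1 : ℚ)) (s0 x)
      rw [Fintype.card_coe] at h5
      rw [← mul_sum, ← h5]
      ring
    rw [mul_sum, sum_congr rfl (fun x _ => h4 x), ← sum_mul]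
    have h6 : ∑ x : {x // x ∈ A}, (d x.1 : ℚ) = ∑ x ∈ A, (d x : ℚ) :=
      sum_coe_sort A (fun x => (d x : ℚ))
    have h7 : ∑ a : {x // x ∈ U}, (e a.1 : ℚ) = ∑ a ∈ U, (e a : ℚ) :=
      sum_coe_sort U (fun a => (e a : ℚ))
    rw [h6, h7]
    push_cast
    ring
  rw [h3] at h2
  have h8 : (0 : ℚ) < (Fintype.card (Equiv.Perm {x // x ∈ U}) : ℚ) := by
    exact_mod_cast Fintype.card_pos
  nlinarith

/-- two-stage averaging: abstract form -/
theorem abstract_avg {R A : Type*} [Fintype R] [DecidableEq R] (s : Finset A)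
    (T1 H1 : A → R → ℚ) (T2 H2 : R → R → ℚ)
    (h : ∀ σ : Equiv.Perm R, 2 ≤ 2 * ∑ x ∈ s, ∑ c, T1 x c * H1 x (σ c) +
      ∑ p ∈ (univ : Finset R).offDiag, T2 p.1 p.2 * H2 (σ p.1) (σ p.2)) :
    2 * ((Fintype.card R : ℚ) * ((univ : Finset R).offDiag.card : ℚ)) ≤
      2 * (((univ : Finset R).offDiag.card : ℚ) * ∑ x ∈ s, (∑ c, T1 x c) * ∑ a, H1 x a) +
      (Fintype.card R : ℚ) * ((∑ p ∈ (univ : Finset R).offDiag, T2 p.1 p.2) *
        ∑ p ∈ (univ : Finset R).offDiag, H2 p.1 p.2) := by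
  classical
  set N : ℚ := (Fintype.card R : ℚ) with hN
  set O : ℚ := ((univ : Finset R).offDiag.card : ℚ) with hO
  set P : ℚ := (Fintype.card (Equiv.Perm R) : ℚ) with hP
  have hPpos : 0 < P := by
    rw [hP]; exact_mod_cast Fintype.card_pos
  have hN0 : 0 ≤ N := by rw [hN]; positivity
  have hO0 : 0 ≤ O := by rw [hO]; positivity
  have h1 := Finset.sum_le_sum (s := (univ : Finset (Equiv.Perm R))) (fun σ _ => h σ)
  rw [sum_const, card_univ, nsmul_eq_mul, sum_add_distrib, ← mul_sum] at h1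
  have h2 : N * ∑ σ : Equiv.Perm R, ∑ x ∈ s, ∑ c, T1 x c * H1 x (σ c) =
      P * ∑ x ∈ s, (∑ c, T1 x c) * ∑ a, H1 x a := by
    rw [sum_comm, mul_sum, mul_sum]
    apply sum_congr rfl
    intro x _
    rw [sum_comm, mul_sum, sum_mul, mul_sum]
    apply sum_congr rfl
    intro c _
    rw [← mul_sum]
    have h5 := avg1 (H1 x) c
    rw [← hN, ← hP] at h5
    calc N * (T1 x c * ∑ σ : Equiv.Perm R, H1 x (σ c))
        = T1 x c * (N * ∑ σ : Equiv.Perm R, H1 x (σ c)) := by ring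
      _ = T1 x c * (P * ∑ a, H1 x a) := by rw [h5]
      _ = _ := by ring
  have h3 : O * ∑ σ : Equiv.Perm R,
      ∑ p ∈ (univ : Finset R).offDiag, T2 p.1 p.2 * H2 (σ p.1) (σ p.2) =
      P * ((∑ p ∈ (univ : Finset R).offDiag, T2 p.1 p.2) *
        ∑ p ∈ (univ : Finset R).offDiag, H2 p.1 p.2) := by
    rw [sum_comm, mul_sum, sum_mul, mul_sum]
    apply sum_congr rfl
    intro p hp
    rw [← mul_sum]
    have h5 := avg2 H2 p.1 p.2 (mem_offDiag.1 hp).2.2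
    rw [← hO, ← hP] at h5
    calc O * (T2 p.1 p.2 * ∑ σ : Equiv.Perm R, H2 (σ p.1) (σ p.2))
        = T2 p.1 p.2 * (O * ∑ σ : Equiv.Perm R, H2 (σ p.1) (σ p.2)) := by ring
      _ = T2 p.1 p.2 * (P * ∑ q ∈ (univ : Finset R).offDiag, H2 q.1 q.2) := by rw [h5]
      _ = _ := by ring
  have h4 : P * (2 * (N * O)) ≤ P * (2 * (O * ∑ x ∈ s, (∑ c, T1 x c) * ∑ a, H1 x a) +
      N * ((∑ p ∈ (univ : Finset R).offDiag, T2 p.1 p.2) *
        ∑ p ∈ (univ : Finset R).offDiag, H2 p.1 p.2)) := by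
    calc P * (2 * (N * O)) = (N * O) * (P * 2) := by ring
      _ ≤ (N * O) * (2 * ∑ σ : Equiv.Perm R, ∑ x ∈ s, ∑ c, T1 x c * H1 x (σ c) +
          ∑ σ : Equiv.Perm R,
            ∑ p ∈ (univ : Finset R).offDiag, T2 p.1 p.2 * H2 (σ p.1) (σ p.2)) :=
          mul_le_mul_of_nonneg_left h1 (mul_nonneg hN0 hO0)
      _ = 2 * O * (N * ∑ σ : Equiv.Perm R, ∑ x ∈ s, ∑ c, T1 x c * H1 x (σ c)) +
          N * (O * ∑ σ : Equiv.Perm R,
            ∑ p ∈ (univ : Finset R).offDiag, T2 p.1 p.2 * H2 (σ p.1) (σ p.2)) := by ring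
      _ = _ := by rw [h2, h3]; ring
  exact le_of_mul_le_mul_left h4 hPpos

end H802.TreeCl
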