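import Pool.Agent.H802.TreeCl.Pack2

set_option autoImplicit false

namespace H802.TreeCl

open Finset H223R3.Tree

theorem deg_ge_two {W : Type} [Fintype W] [DecidableEq W] (T : SimpleGraph W)
    [DecidableRel T.Adj] (hT : T.IsTree) (hnt : Nontrivial W) (l p : W) (hlp : T.Adj l p)
    (hup : ∀ q, T.Adj l q → q = p) (hns : ∃ w, w ≠ p ∧ ¬ T.Adj p w) : 2 ≤ T.degree p := by
  by_contra hcon
  have h1 : 1 ≤ T.degree p := hT.connected.preconnected.degree_pos_of_nontrivial p
  have h2 : T.degree p = 1 := by omega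
  obtain ⟨q, hq, huq⟩ := SimpleGraph.degree_eq_one_iff_existsUnique_adj.mp h2
  have hql : q = l := (huq l hlp.symm).symm
  have hclos : ∀ a b, T.Adj a b → (b = p ∨ b = l) → (a = p ∨ a = l) := by
    intro a b hab hb
    rcases hb with rfl | rfl
    · right
      rw [← hql]
      exact huq a hab.symm
    · left
      exact hup a hab.symm
  have hwalk : ∀ {a b : W} (wk : T.Walk a b), (b = p ∨ b = l) → (a = p ∨ a = l) := by
    intro a b wk
    induction wk with
    | nil => exact id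
    | cons hab _ ih => exact fun h => hclos _ _ hab (ih h)
  obtain ⟨w, hw1, hw2⟩ := hns
  obtain ⟨wk⟩ := hT.connected.preconnected w p
  rcases hwalk wk (Or.inl rfl) with h | h
  · exact hw1 h
  · exact hw2 (h ▸ hlp.symm)

theorem pack {V : Type*} [DecidableEq V] (G : SimpleGraph V) [DecidableRel G.Adj]
    {W : Type} [Fintype W] [DecidableEq W] (T : SimpleGraph W) [DecidableRel T.Adj]
    (hT : T.IsTree) (K : ℕ)
    (hW : Fintype.card W = K + 4) (l p : W) (hlp : T.Adj l p) (hup : ∀ q, T.Adj l q → q = p)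
    (hns : ∃ w, w ≠ p ∧ ¬ T.Adj p w)
    (I : Finset W) (hI1 : l ∉ I) (hI2 : p ∉ I) (hI3 : ∀ i ∈ I, ¬ T.Adj p i)
    (hI4 : ∀ i ∈ I, ∀ i' ∈ I, ¬ T.Adj i i') (hI5 : K + 1 ≤ 2 * I.card)
    (S : Finset V) (hS : NoCopy G T S)
    (Q : Finset V) (hQS : Q ⊆ S) (hQ : Q.card = K + 3) (u z : V) (hu : u ∈ Q) (hz : z ∈ S)
    (hzQ : z ∉ Q) (huz : G.Adj u z) : K + 2 ≤ (miss G Q).card := by
  by_contra hcon
  push Not at hcon
  have hnt : Nontrivial W := Fintype.one_lt_card_iff_nontrivial.1 (by omega)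
  have hdegpos : ∀ w, 1 ≤ T.degree w := fun w =>
    hT.connected.preconnected.degree_pos_of_nontrivial w
  have hp2 := deg_ge_two T hT hnt l p hlp hup hns
  have hE := hT.card_edgeFinset
  rw [hW] at hE
  have hE' : T.edgeFinset.card = K + 3 := by omega
  set U := (Q.erase u).filter (fun a => ¬ G.Adj u a) with hU
  set R := (Q.erase u).filter (fun a => G.Adj u a) with hR
  have hUm : ∀ a, a ∈ U ↔ (a ≠ u ∧ a ∈ Q) ∧ ¬ G.Adj u a := by
    intro a; rw [hU, mem_filter, mem_erase]
  have hRm : ∀ a, a ∈ R ↔ (a ≠ u ∧ a ∈ Q) ∧ G.Adj u a := by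
    intro a; rw [hR, mem_filter, mem_erase]
  have hmg := miss_ge G Q u hu U R hU hR
  have hcards : R.card + U.card = K + 2 := by
    have h1 := card_filter_add_card_filter_not (s := Q.erase u) (fun a => G.Adj u a)
    rw [card_erase_of_mem hu, hQ] at h1
    rw [hR, hU]; omega
  -- the set `A`
  have hindI : ∀ a ∈ insert p I, ∀ b ∈ insert p I, ¬ T.Adj a b := by
    intro a ha b hb
    rw [mem_insert] at ha hb
    rcases ha with rfl | ha
    · rcases hb with rfl | hb
      · exact fun h => h.ne rfl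
      · exact hI3 b hb
    · rcases hb with rfl | hb
      · exact fun h => hI3 a ha h.symm
      · exact hI4 a ha b hb
  have hpo := pairs_out T (insert p I) hindI
  rw [sum_insert hI2, hE'] at hpo
  obtain ⟨A, hAI, hAc, hAd⟩ := small_sub (fun w => T.degree w) U.card I.card I rfl
    (by omega) (by omega)
  have hAU : A.card = U.card := hAc
  have hindA : ∀ a ∈ insert p A, ∀ b ∈ insert p A, ¬ T.Adj a b := by
    intro a ha b hb
    exact hindI a (insert_subset_insert p hAI ha) b (insert_subset_insert p hAI hb)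
  have hlA : l ∉ A := fun h => hI1 (hAI h)
  have hpA : p ∉ A := fun h => hI2 (hAI h)
  have hpo2 := pairs_out T (insert p A) hindA
  rw [sum_insert hpA, hE'] at hpo2
  have hAdeg : A.card ≤ ∑ i ∈ A, T.degree i := by
    rw [card_eq_sum_ones]
    exact sum_le_sum (fun i _ => hdegpos i)
  obtain ⟨s, hs⟩ := assign A U hAU (fun w => T.degree w) (fun a => eR G R a)
  -- the base bijection
  let f0 : W → V := fun w => if h : w ∈ A then (s ⟨w, h⟩).1 else if w = l then z else u
  have hCu : u ∉ U := fun h => ((hUm u).1 h).1.1 rfl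
  have hCQ : ∀ x ∈ U, x ∈ Q := fun x hx => ((hUm x).1 hx).1.2
  have hCz : z ∉ U := fun h => hzQ (hCQ z h)
  have hfJ : ∀ w (h : w ∈ A), f0 w = (s ⟨w, h⟩).1 := fun w h => dif_pos h
  have hfl : f0 l = z := by
    show (if h : l ∈ A then (s ⟨l, h⟩).1 else if l = l then z else u) = z
    rw [dif_neg hlA, if_pos rfl]
  have hfp : f0 p = u := by
    show (if h : p ∈ A then (s ⟨p, h⟩).1 else if p = l then z else u) = u
    rw [dif_neg hpA, if_neg hlp.ne.symm]
  have huz' : u ≠ z := fun h => hzQ (h ▸ hu)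
  have ht : Fintype.card W = (insert z Q).card := by
    rw [hW, card_insert_of_notMem hzQ, hQ]
  have hst : (insert l (insert p A)).image f0 ⊆ insert z Q := by
    intro x hx
    rw [mem_image] at hx
    obtain ⟨w, hw, rfl⟩ := hx
    rw [mem_insert, mem_insert] at hw
    rcases hw with rfl | rfl | hw
    · rw [hfl]; exact mem_insert_self _ _
    · rw [hfp]; exact mem_insert_of_mem hu
    · rw [hfJ w hw]
      exact mem_insert_of_mem (hCQ _ (s ⟨w, hw⟩).2)
  have hinj : Set.InjOn f0 ((insert l (insert p A) : Finset W) : Set W) := by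
    intro a ha b hb hab
    rw [mem_coe, mem_insert, mem_insert] at ha hb
    rcases ha with rfl | rfl | ha
    · rcases hb with rfl | rfl | hb
      · rfl
      · rw [hfl, hfp] at hab; exact absurd hab.symm huz'
      · rw [hfl, hfJ b hb] at hab
        exact absurd (hab ▸ (s ⟨b, hb⟩).2) hCz
    · rcases hb with rfl | rfl | hb
      · rw [hfl, hfp] at hab; exact absurd hab huz'
      · rfl
      · rw [hfp, hfJ b hb] at hab
        exact absurd (hab ▸ (s ⟨b, hb⟩).2) hCu
    · rcases hb with rfl | rfl | hb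
      · rw [hfl, hfJ a ha] at hab
        exact absurd (hab ▸ (s ⟨a, ha⟩).2) hCz
      · rw [hfp, hfJ a ha] at hab
        exact absurd (hab ▸ (s ⟨a, ha⟩).2) hCu
      · rw [hfJ a ha, hfJ b hb] at hab
        have := s.injective (Subtype.ext hab)
        exact congrArg Subtype.val this
  obtain ⟨g, hg⟩ := Finset.exists_equiv_extend_of_card_eq ht hst hinj
  have hgl : (g l).1 = z := (hg l (mem_insert_self _ _)).trans hfl
  have hgp : (g p).1 = u := (hg p (mem_insert_of_mem (mem_insert_self _ _))).trans hfp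
  have hgA : ∀ w (h : w ∈ A), (g w).1 = (s ⟨w, h⟩).1 := fun w h =>
    (hg w (mem_insert_of_mem (mem_insert_of_mem h))).trans (hfJ w h)
  have hginj : ∀ a b, (g a).1 = (g b).1 → a = b := fun a b h => g.injective (Subtype.ext h)
  have hgU : ∀ w, (g w).1 ∈ U → w ∈ A := by
    intro w hw
    let j := s.symm ⟨(g w).1, hw⟩
    have h1 : (g j.1).1 = (g w).1 := by
      rw [hgA j.1 j.2]
      show (s (s.symm ⟨(g w).1, hw⟩)).1 = (g w).1
      rw [Equiv.apply_symm_apply]
    have h2 := hginj _ _ h1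
    rw [← h2]
    exact j.2
  have hgR : ∀ w, w ≠ l → w ≠ p → w ∉ A → (g w).1 ∈ R := by
    intro w h1 h2 h3
    have h4 : (g w).1 ∈ insert z Q := (g w).2
    rw [mem_insert] at h4
    have h5 : (g w).1 ≠ z := fun h => h1 (hginj w l (h.trans hgl.symm))
    have h6 : (g w).1 ≠ u := fun h => h2 (hginj w p (h.trans hgp.symm))
    rcases h4 with h4 | h4
    · exact absurd h4 h5
    · rw [hRm]
      refine ⟨⟨h6, h4⟩, ?_⟩
      by_contra h7
      exact h3 (hgU w ((hUm _).2 ⟨⟨h6, h4⟩, h7⟩))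
  have hRQ : ∀ x ∈ R, x ∈ insert z Q := fun x hx => mem_insert_of_mem ((hRm x).1 hx).1.2
  let q : {x // x ∈ R} → W := fun c => g.symm ⟨c.1, hRQ c.1 c.2⟩
  have hq : ∀ c, (g (q c)).1 = c.1 := by
    intro c
    show (g (g.symm ⟨c.1, hRQ c.1 c.2⟩)).1 = c.1
    rw [Equiv.apply_symm_apply]
  have hqinj : Function.Injective q := by
    intro c d h
    apply Subtype.ext
    rw [← hq c, ← hq d, h]
  have hqg : ∀ w (h : (g w).1 ∈ R), q ⟨(g w).1, h⟩ = w := by
    intro w h
    exact hginj _ _ (hq ⟨(g w).1, h⟩)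
  have hqJ : ∀ c, q c ∉ insert p A := by
    intro c h
    rw [mem_insert] at h
    have h1 := (hRm c.1).1 c.2
    rcases h with h | h
    · have h2 := hq c
      rw [h, hgp] at h2
      exact h1.1.1 h2.symm
    · have h2 := hq c
      rw [hgA _ h] at h2
      have h3 := (hUm _).1 (s ⟨q c, h⟩).2
      rw [h2] at h3
      exact h3.2 h1.2
  let T1 : W → {x // x ∈ R} → ℚ := fun x c => if T.Adj x (q c) then 1 else 0
  let H1 : W → {x // x ∈ R} → ℚ := fun x a => if G.Adj (g x).1 a.1 then 0 else 1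
  let T2 : {x // x ∈ R} → {x // x ∈ R} → ℚ := fun c d => if T.Adj (q c) (q d) then 1 else 0
  let H2 : {x // x ∈ R} → {x // x ∈ R} → ℚ := fun a b => if G.Adj a.1 b.1 then 0 else 1
  have hT1 : ∀ x c, 0 ≤ T1 x c := by
    intro x c
    show (0 : ℚ) ≤ if T.Adj x (q c) then 1 else 0
    split_ifs <;> norm_num
  have hH1 : ∀ x c, 0 ≤ H1 x c := by
    intro x c
    show (0 : ℚ) ≤ if G.Adj (g x).1 c.1 then 0 else 1
    split_ifs <;> norm_num
  have hT2 : ∀ x c, 0 ≤ T2 x c := by
    intro x c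
    show (0 : ℚ) ≤ if T.Adj (q x) (q c) then 1 else 0
    split_ifs <;> norm_num
  have hH2 : ∀ x c, 0 ≤ H2 x c := by
    intro x c
    show (0 : ℚ) ≤ if G.Adj x.1 c.1 then 0 else 1
    split_ifs <;> norm_num
  have hconf : ∀ σ : Equiv.Perm {x // x ∈ R}, 2 ≤ 2 * ∑ x ∈ A, ∑ c, T1 x c * H1 x (σ c) +
      ∑ pr ∈ (univ : Finset {x // x ∈ R}).offDiag, T2 pr.1 pr.2 * H2 (σ pr.1) (σ pr.2) := by
    intro σ
    by_contra hlt
    push Not at hlt
    have hn1 : 0 ≤ ∑ x ∈ A, ∑ c, T1 x c * H1 x (σ c) :=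
      sum_nonneg (fun x _ => sum_nonneg (fun c _ => mul_nonneg (hT1 x c) (hH1 x (σ c))))
    have hn2 : 0 ≤ ∑ pr ∈ (univ : Finset {x // x ∈ R}).offDiag,
        T2 pr.1 pr.2 * H2 (σ pr.1) (σ pr.2) :=
      sum_nonneg (fun pr _ => mul_nonneg (hT2 _ _) (hH2 _ _))
    have hc1 : ∀ x ∈ A, ∀ c, T.Adj x (q c) → G.Adj (g x).1 (σ c).1 := by
      intro x hx c hadj
      by_contra hnadj
      have h1 : T1 x c * H1 x (σ c) = 1 := by
        show (if T.Adj x (q c) then (1 : ℚ) else 0) * (if G.Adj (g x).1 (σ c).1 then 0 else 1) = 1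
        rw [if_pos hadj, if_neg hnadj]; norm_num
      have h2 : T1 x c * H1 x (σ c) ≤ ∑ c, T1 x c * H1 x (σ c) :=
        single_le_sum (f := fun c => T1 x c * H1 x (σ c))
          (fun c _ => mul_nonneg (hT1 x c) (hH1 x (σ c))) (mem_univ c)
      have h3 : ∑ c, T1 x c * H1 x (σ c) ≤ ∑ x ∈ A, ∑ c, T1 x c * H1 x (σ c) :=
        single_le_sum (f := fun x => ∑ c, T1 x c * H1 x (σ c))
          (fun x _ => sum_nonneg (fun c _ => mul_nonneg (hT1 x c) (hH1 x (σ c)))) hx
      linarith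
    have hc2 : ∀ c d, c ≠ d → T.Adj (q c) (q d) → G.Adj (σ c).1 (σ d).1 := by
      intro c d hcd hadj
      by_contra hnadj
      have h1 : T2 c d * H2 (σ c) (σ d) = 1 := by
        show (if T.Adj (q c) (q d) then (1 : ℚ) else 0) *
          (if G.Adj (σ c).1 (σ d).1 then 0 else 1) = 1
        rw [if_pos hadj, if_neg hnadj]; norm_num
      have h2 : T2 d c * H2 (σ d) (σ c) = 1 := by
        show (if T.Adj (q d) (q c) then (1 : ℚ) else 0) *
          (if G.Adj (σ d).1 (σ c).1 then 0 else 1) = 1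
        rw [if_pos hadj.symm, if_neg (fun h => hnadj h.symm)]; norm_num
      have h3 : ({(c, d), (d, c)} : Finset ({x // x ∈ R} × {x // x ∈ R})) ⊆
          (univ : Finset {x // x ∈ R}).offDiag := by
        intro pr hpr
        rw [mem_insert, mem_singleton] at hpr
        rw [mem_offDiag]
        rcases hpr with rfl | rfl
        · exact ⟨mem_univ _, mem_univ _, hcd⟩
        · exact ⟨mem_univ _, mem_univ _, hcd.symm⟩
      have h4 := sum_le_sum_of_subset_of_nonneg
        (f := fun pr : {x // x ∈ R} × {x // x ∈ R} => T2 pr.1 pr.2 * H2 (σ pr.1) (σ pr.2)) h3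
        (fun pr _ _ => mul_nonneg (hT2 _ _) (hH2 _ _))
      have h5 : ((c, d) : {x // x ∈ R} × {x // x ∈ R}) ≠ (d, c) := by
        intro h
        exact hcd (Prod.ext_iff.1 h).1
      rw [sum_pair h5] at h4
      simp only at h4
      rw [h1, h2] at h4
      linarith
    -- the copy
    let F : W → V := fun w => if h : (g w).1 ∈ R then (σ ⟨(g w).1, h⟩).1 else (g w).1
    have hFR : ∀ w (h : (g w).1 ∈ R), F w = (σ ⟨(g w).1, h⟩).1 := fun w h => dif_pos h
    have hFn : ∀ w, (g w).1 ∉ R → F w = (g w).1 := fun w h => dif_neg h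
    have hzR : z ∉ R := fun h => hzQ ((hRm z).1 h).1.2
    have huR : u ∉ R := fun h => ((hRm u).1 h).1.1 rfl
    have hFl : F l = z := by rw [hFn l (by rw [hgl]; exact hzR), hgl]
    have hFp : F p = u := by rw [hFn p (by rw [hgp]; exact huR), hgp]
    have hAR : ∀ x ∈ A, (g x).1 ∉ R := by
      intro x hx h
      rw [hgA x hx] at h
      exact ((hUm _).1 (s ⟨x, hx⟩).2).2 ((hRm _).1 h).2
    have hother : ∀ w, w ≠ l → w ≠ p → w ∉ A → ∃ c : {x // x ∈ R}, q c = w ∧ F w = (σ c).1 := by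
      intro w h1 h2 h3
      have h4 := hgR w h1 h2 h3
      exact ⟨⟨(g w).1, h4⟩, hqg w h4, hFR w h4⟩
    apply hS
    refine ⟨F, ?_, ?_, ?_⟩
    · intro a b hab
      by_cases ha : (g a).1 ∈ R
      · by_cases hb : (g b).1 ∈ R
        · rw [hFR a ha, hFR b hb] at hab
          have h1 := σ.injective (Subtype.ext hab)
          have h2 : (⟨(g a).1, ha⟩ : {x // x ∈ R}).1 = (⟨(g b).1, hb⟩ : {x // x ∈ R}).1 :=
            congrArg Subtype.val h1
          exact hginj a b h2
        · rw [hFR a ha, hFn b hb] at hab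
          exact absurd (hab ▸ (σ ⟨(g a).1, ha⟩).2) hb
      · by_cases hb : (g b).1 ∈ R
        · rw [hFn a ha, hFR b hb] at hab
          exact absurd (hab.symm ▸ (σ ⟨(g b).1, hb⟩).2) ha
        · rw [hFn a ha, hFn b hb] at hab
          exact hginj a b hab
    · intro w
      have h0 : ∀ x ∈ insert z Q, x ∈ S := by
        intro x hx
        rw [mem_insert] at hx
        rcases hx with rfl | hx
        · exact hz
        · exact hQS hx
      by_cases hw : (g w).1 ∈ R
      · rw [hFR w hw]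
        exact h0 _ (hRQ _ (σ ⟨(g w).1, hw⟩).2)
      · rw [hFn w hw]
        exact h0 _ (g w).2
    · intro a b hab
      by_cases ha : a = l
      · have hb : b = p := hup b (ha ▸ hab)
        rw [ha, hb, hFl, hFp]
        exact huz.symm
      by_cases hb : b = l
      · have ha' : a = p := hup a (hb ▸ hab.symm)
        rw [ha', hb, hFl, hFp]
        exact huz
      by_cases hap : a = p
      · have hbp : b ≠ p := fun h => hab.ne (by rw [hap, h])
        have hbA : b ∉ A := fun h => hindA p (mem_insert_self _ _) b (mem_insert_of_mem h)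
          (hap ▸ hab)
        obtain ⟨c, _, hc⟩ := hother b hb hbp hbA
        rw [hap, hFp, hc]
        exact ((hRm _).1 (σ c).2).2
      by_cases hbp : b = p
      · have haA : a ∉ A := fun h => hindA p (mem_insert_self _ _) a (mem_insert_of_mem h)
          (hbp ▸ hab.symm)
        obtain ⟨c, _, hc⟩ := hother a ha hap haA
        rw [hbp, hFp, hc]
        exact ((hRm _).1 (σ c).2).2.symm
      by_cases haA : a ∈ A
      · have hbA : b ∉ A := fun h => hindA a (mem_insert_of_mem haA) b (mem_insert_of_mem h) hab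
        obtain ⟨c, hqc, hc⟩ := hother b hb hbp hbA
        rw [hFn a (hAR a haA), hc]
        exact hc1 a haA c (by rw [hqc]; exact hab)
      · by_cases hbA : b ∈ A
        · obtain ⟨c, hqc, hc⟩ := hother a ha hap haA
          rw [hFn b (hAR b hbA), hc]
          exact (hc1 b hbA c (by rw [hqc]; exact hab.symm)).symm
        · obtain ⟨c, hqc, hc⟩ := hother a ha hap haA
          obtain ⟨d, hqd, hd⟩ := hother b hb hbp hbA
          rw [hc, hd]
          apply hc2 c d
          · intro h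
            exact hab.ne (by rw [← hqc, ← hqd, h])
          · rw [hqc, hqd]; exact hab
  have hav := abstract_avg A T1 H1 T2 H2 hconf
  have hAR' : ∀ x ∈ A, (g x).1 ∉ R := by
    intro x hx h
    rw [hgA x hx] at h
    exact ((hUm _).1 (s ⟨x, hx⟩).2).2 ((hRm _).1 h).2
  -- the sums
  have F3 : ∀ x, ∑ c, T1 x c ≤ (T.degree x : ℚ) := by
    intro x
    have h1 : ∑ c, T1 x c = ((univ.filter (fun c => T.Adj x (q c))).card : ℚ) := by
      show ∑ c, (if T.Adj x (q c) then (1 : ℚ) else 0) = _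
      rw [sum_boole]
    rw [h1]
    have h2 : (univ.filter (fun c => T.Adj x (q c))).card ≤ T.degree x := by
      rw [← SimpleGraph.card_neighborFinset_eq_degree]
      apply card_le_card_of_injOn q
      · intro c hc
        rw [mem_coe, mem_filter] at hc
        rw [mem_coe, SimpleGraph.mem_neighborFinset]
        exact hc.2
      · exact fun c _ d _ h => hqinj h
    exact_mod_cast h2
  have F4 : ∀ x ∈ A, ∑ a, H1 x a ≤ (eR G R (g x).1 : ℚ) := by
    intro x hx
    have h1 : ∑ a, H1 x a = ((univ.filter (fun a : {x // x ∈ R} => ¬ G.Adj (g x).1 a.1)).card : ℚ) := by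
      rw [← sum_boole]
      apply sum_congr rfl
      intro a _
      show (if G.Adj (g x).1 a.1 then (0 : ℚ) else 1) = if ¬ G.Adj (g x).1 a.1 then 1 else 0
      by_cases h : G.Adj (g x).1 a.1
      · rw [if_pos h, if_neg (not_not.2 h)]
      · rw [if_neg h, if_pos h]
    rw [h1]
    have h2 : (univ.filter (fun a : {x // x ∈ R} => ¬ G.Adj (g x).1 a.1)).card ≤
        eR G R (g x).1 := by
      apply card_le_card_of_injOn Subtype.val
      · intro a ha
        rw [mem_coe, mem_filter] at ha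
        rw [mem_coe, mem_filter]
        exact ⟨a.2, fun h => hAR' x hx (h ▸ a.2), ha.2⟩
      · exact fun a _ b _ h => Subtype.ext h
    exact_mod_cast h2
  set S1 : ℕ := ∑ x ∈ A, T.degree x * eR G R (g x).1 with hS1
  have F5 : ∑ x ∈ A, (∑ c, T1 x c) * ∑ a, H1 x a ≤ (S1 : ℚ) := by
    rw [hS1]
    push_cast
    apply sum_le_sum
    intro x hx
    exact mul_le_mul (F3 x) (F4 x hx) (sum_nonneg (fun a _ => hH1 x a)) (by positivity)
  have F5' : U.card * S1 ≤ (∑ i ∈ A, T.degree i) * ∑ a ∈ U, eR G R a := by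
    have h1 : S1 = ∑ x : {x // x ∈ A}, T.degree x.1 * eR G R (s x).1 := by
      rw [hS1, ← sum_coe_sort A (fun x => T.degree x * eR G R (g x).1)]
      apply sum_congr rfl
      intro x _
      rw [hgA x.1 x.2]
    rw [h1]
    exact hs
  set J := insert p A with hJ
  set Pout := ∑ a ∈ Jᶜ, ∑ b ∈ Jᶜ, (if T.Adj a b then 1 else 0) with hPout
  have F6 : ∑ pr ∈ (univ : Finset {x // x ∈ R}).offDiag, T2 pr.1 pr.2 ≤ (Pout : ℚ) := by
    have h1 : ∑ pr ∈ (univ : Finset {x // x ∈ R}).offDiag, T2 pr.1 pr.2 =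
        (((univ : Finset {x // x ∈ R}).offDiag.filter
          (fun pr => T.Adj (q pr.1) (q pr.2))).card : ℚ) := by
      show ∑ pr ∈ (univ : Finset {x // x ∈ R}).offDiag,
        (if T.Adj (q pr.1) (q pr.2) then (1 : ℚ) else 0) = _
      rw [sum_boole]
    have h2 : Pout = ((Jᶜ ×ˢ Jᶜ).filter (fun pr => T.Adj pr.1 pr.2)).card := by
      rw [hPout, card_filter, sum_product]
    rw [h1, h2]
    have h3 : ((univ : Finset {x // x ∈ R}).offDiag.filter
        (fun pr => T.Adj (q pr.1) (q pr.2))).card ≤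
        ((Jᶜ ×ˢ Jᶜ).filter (fun pr => T.Adj pr.1 pr.2)).card := by
      apply card_le_card_of_injOn (fun pr => (q pr.1, q pr.2))
      · intro pr hpr
        rw [mem_coe, mem_filter] at hpr
        rw [mem_coe, mem_filter, mem_product, mem_compl, mem_compl]
        exact ⟨⟨hqJ pr.1, hqJ pr.2⟩, hpr.2⟩
      · intro pr _ pr' _ h
        rw [Prod.ext_iff] at h
        exact Prod.ext (hqinj h.1) (hqinj h.2)
    exact_mod_cast h3
  have F7 : ∑ pr ∈ (univ : Finset {x // x ∈ R}).offDiag, H2 pr.1 pr.2 ≤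
      ((∑ a ∈ R, eR G R a : ℕ) : ℚ) := by
    have h1 : ∑ pr ∈ (univ : Finset {x // x ∈ R}).offDiag, H2 pr.1 pr.2 =
        (((univ : Finset {x // x ∈ R}).offDiag.filter
          (fun pr => ¬ G.Adj pr.1.1 pr.2.1)).card : ℚ) := by
      rw [← sum_boole]
      apply sum_congr rfl
      intro pr _
      show (if G.Adj pr.1.1 pr.2.1 then (0 : ℚ) else 1) = if ¬ G.Adj pr.1.1 pr.2.1 then 1 else 0
      by_cases h : G.Adj pr.1.1 pr.2.1
      · rw [if_pos h, if_neg (not_not.2 h)]
      · rw [if_neg h, if_pos h]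
    rw [h1, ← miss_eq]
    have h3 : ((univ : Finset {x // x ∈ R}).offDiag.filter
        (fun pr => ¬ G.Adj pr.1.1 pr.2.1)).card ≤ (miss G R).card := by
      apply card_le_card_of_injOn (fun pr => (pr.1.1, pr.2.1))
      · intro pr hpr
        rw [mem_coe, mem_filter, mem_offDiag] at hpr
        rw [mem_coe, mem_miss]
        exact ⟨⟨pr.1.2, pr.2.2⟩, fun h => hpr.1.2.2 (Subtype.ext h), hpr.2⟩
      · intro pr _ pr' _ h
        rw [Prod.ext_iff] at h
        exact Prod.ext (Subtype.ext h.1) (Subtype.ext h.2)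
    exact_mod_cast h3
  set EU := ∑ a ∈ U, eR G R a with hEU
  set ER := ∑ a ∈ R, eR G R a with hER
  have hS1le : S1 ≤ 2 * EU := by
    rcases Nat.eq_zero_or_pos U.card with h0 | h0
    · have hA0 : A = ∅ := card_eq_zero.1 (by omega)
      rw [hS1, hA0, sum_empty]; omega
    · have h1 : U.card * S1 ≤ U.card * (2 * EU) := by
        calc U.card * S1 ≤ (∑ i ∈ A, T.degree i) * EU := F5'
          _ ≤ (2 * U.card) * EU := Nat.mul_le_mul_right _ hAd
          _ = _ := by ring
      exact Nat.le_of_mul_le_mul_left h1 h0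
  obtain ⟨N', hN'⟩ : ∃ N', R.card = N' + 2 := ⟨R.card - 2, by omega⟩
  have hoff : (univ : Finset {x // x ∈ R}).offDiag.card = (N' + 2) * (N' + 1) := by
    rw [offDiag_card, card_univ, Fintype.card_coe, hN']
    have : (N' + 2) * (N' + 2) = (N' + 2) * (N' + 1) + (N' + 2) := by ring
    omega
  rw [Fintype.card_coe, hoff, hN'] at hav
  have hPle : Pout ≤ 2 * (N' + 1) := by omega
  have hPle' : (Pout : ℚ) ≤ 2 * ((N' : ℚ) + 1) := by exact_mod_cast hPle
  have hER0 : (0 : ℚ) ≤ (ER : ℚ) := by positivity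
  have h9 : (∑ pr ∈ (univ : Finset {x // x ∈ R}).offDiag, T2 pr.1 pr.2) *
      ∑ pr ∈ (univ : Finset {x // x ∈ R}).offDiag, H2 pr.1 pr.2 ≤
      (2 * ((N' : ℚ) + 1)) * (ER : ℚ) := by
    apply mul_le_mul (F6.trans hPle') F7 (sum_nonneg (fun pr _ => hH2 _ _)) (by positivity)
  push_cast at hav
  have h10 : (2 * (((N' : ℚ) + 2) * ((N' : ℚ) + 1))) * ((N' : ℚ) + 2) ≤
      (2 * (((N' : ℚ) + 2) * ((N' : ℚ) + 1))) * ((S1 : ℚ) + (ER : ℚ)) := by
    have h11 : (((N' : ℚ) + 2) * ((N' : ℚ) + 1)) * ∑ x ∈ A, (∑ c, T1 x c) * ∑ a, H1 x a ≤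
        (((N' : ℚ) + 2) * ((N' : ℚ) + 1)) * (S1 : ℚ) :=
      mul_le_mul_of_nonneg_left F5 (by positivity)
    have h12 : ((N' : ℚ) + 2) * ((∑ pr ∈ (univ : Finset {x // x ∈ R}).offDiag, T2 pr.1 pr.2) *
        ∑ pr ∈ (univ : Finset {x // x ∈ R}).offDiag, H2 pr.1 pr.2) ≤
        ((N' : ℚ) + 2) * ((2 * ((N' : ℚ) + 1)) * (ER : ℚ)) :=
      mul_le_mul_of_nonneg_left h9 (by positivity)
    linarith
  have h13 := le_of_mul_le_mul_left h10 (by positivity)
  have h14 : N' + 2 ≤ S1 + ER := by exact_mod_cast h13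
  omega

end H802.TreeCl
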