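import Pool.Agent.H802.TreeCl.Star
import Pool.Agent.H802.TreeCl.Pack3

set_option autoImplicit false

namespace H802.TreeCl

open Finset H223R3.Tree

theorem half_num (x y : ℕ) (h : 2 * x ≤ y) (j : ℕ) (hj : 1 ≤ j) :
    (j + 1) * x.choose j ≤ y.choose j := by
  induction j, hj using Nat.le_induction with
  | base => rw [Nat.choose_one_right, Nat.choose_one_right]; exact h
  | succ j hj ih =>
    rcases Nat.lt_or_ge x (j + 1) with hx | hx
    · rw [Nat.choose_eq_zero_of_lt hx]; omega
    · have h1 : x.choose (j + 1) * (j + 1) = x.choose j * (x - j) := Nat.choose_succ_right_eq x j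
      have h2 : y.choose (j + 1) * (j + 1) = y.choose j * (y - j) := Nat.choose_succ_right_eq y j
      obtain ⟨X, rfl⟩ : ∃ X, x = X + j := ⟨x - j, by omega⟩
      obtain ⟨Y, rfl⟩ : ∃ Y, y = Y + j := ⟨y - j, by omega⟩
      have e1 : X + j - j = X := by omega
      have e2 : Y + j - j = Y := by omega
      rw [e1] at h1
      rw [e2] at h2
      have h3 : (j + 2) * X ≤ (j + 1) * Y := by
        have h4 : 2 * X + j ≤ Y := by omega
        have h6 : (j + 1) * (2 * X + j) ≤ (j + 1) * Y := Nat.mul_le_mul_left _ h4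
        nlinarith
      have h8 : ((j + 1) * (j + 1)) * ((j + 1 + 1) * (X + j).choose (j + 1)) ≤
          ((j + 1) * (j + 1)) * (Y + j).choose (j + 1) := by
        calc ((j + 1) * (j + 1)) * ((j + 1 + 1) * (X + j).choose (j + 1))
            = (j + 1) * (j + 2) * ((X + j).choose (j + 1) * (j + 1)) := by ring
          _ = (j + 1) * (j + 2) * ((X + j).choose j * X) := by rw [h1]
          _ = ((j + 1) * (X + j).choose j) * ((j + 2) * X) := by ring
          _ ≤ (Y + j).choose j * ((j + 1) * Y) := Nat.mul_le_mul ih h3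
          _ = (j + 1) * ((Y + j).choose j * Y) := by ring
          _ = (j + 1) * ((Y + j).choose (j + 1) * (j + 1)) := by rw [h2]
          _ = _ := by ring
      exact Nat.le_of_mul_le_mul_left h8 (by positivity)

section

variable {V : Type*} [DecidableEq V] (G : SimpleGraph V) [DecidableRel G.Adj]

theorem miss_even (N : Finset V) : Even (miss G N).card := by
  have h : ∑ _p ∈ miss G N, (1 : ZMod 2) = 0 := by
    apply Finset.sum_involution (fun p _ => (p.2, p.1))
    · intro p _
      decide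
    · intro p hp _ h
      rw [mem_miss] at hp
      exact hp.2.1 (Prod.ext_iff.1 h).2
    · intro p hp
      rw [mem_miss] at hp ⊢
      exact ⟨⟨hp.1.2, hp.1.1⟩, hp.2.1.symm, fun h => hp.2.2 h.symm⟩
    · intro p _
      rfl
  rw [sum_const, nsmul_eq_mul, mul_one] at h
  exact (ZMod.natCast_eq_zero_iff_even).1 h

theorem miss_insert (N : Finset V) (v : V) (hv : ∀ w ∈ N, G.Adj v w) :
    (miss G (insert v N)).card ≤ (miss G N).card := by
  apply card_le_card
  intro p hp
  rw [mem_miss] at hp ⊢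
  obtain ⟨⟨h1, h2⟩, h3, h4⟩ := hp
  rw [mem_insert] at h1 h2
  refine ⟨⟨?_, ?_⟩, h3, h4⟩
  · rcases h1 with h1 | h1
    · rcases h2 with h2 | h2
      · exact absurd (h1.trans h2.symm) h3
      · exact absurd (h1 ▸ hv p.2 h2) h4
    · exact h1
  · rcases h2 with h2 | h2
    · rcases h1 with h1 | h1
      · exact absurd (h1.trans h2.symm) h3
      · exact absurd (h2 ▸ (hv p.1 h1).symm) h4
    · exact h2

/-- The rate for all vertices when no set of `k - 1` vertices is closed. -/
theorem rate' {W : Type} [Fintype W] (T : SimpleGraph W) (hT : T.IsTree) (K R : ℕ)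
    (hW : Fintype.card W = K + 4)
    (hns : ∀ p, ∃ w, w ≠ p ∧ ¬ T.Adj p w) (S : Finset V) (hS : NoCopy G T S)
    (hcl : ∀ Q ⊆ S, Q.card = K + 3 → ∃ u ∈ Q, ∃ z ∈ S, z ∉ Q ∧ G.Adj u z) (v : V) (hv : v ∈ S) :
    (K + 1) * (cl G (R + 2) (nb G S v)).card ≤
      (K + 1).choose (R + 2) * (nb G S v).card := by
  classical
  rcases Nat.lt_trichotomy (nb G S v).card (K + 2) with hlt | heq | hgt
  · exact low G (K + 1) R (nb G S v) (by omega)
  · obtain ⟨l, p, I, hlp, hup, hI1, hI2, hI3, hI4, hI5⟩ := leaf T hT K hW hns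
    have hvn : v ∉ nb G S v := by
      rw [mem_nb]
      exact fun h => h.2.ne rfl
    have hQS : insert v (nb G S v) ⊆ S := by
      apply insert_subset hv
      intro x hx
      exact ((mem_nb G S v x).1 hx).1
    have hQc : (insert v (nb G S v)).card = K + 3 := by
      rw [card_insert_of_notMem hvn, heq]
    obtain ⟨u, hu, z, hz, hzQ, huz⟩ := hcl _ hQS hQc
    have h1 := pack G T hT K hW l p hlp hup (hns p) I hI1 hI2 hI3 hI4 hI5 S hS _ hQS hQc u z hu
      hz hzQ huz
    have h2 := miss_insert G (nb G S v) v (fun w hw => ((mem_nb G S v w).1 hw).2)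
    obtain ⟨c, hc⟩ := miss_even G (nb G S v)
    have h3 := kk G (R + 1) (K + 1) (nb G S v) heq ((K + 3) / 2) (by omega) (by omega)
    have h4 := half_num (K + 1 - (K + 3) / 2) K (by omega) (R + 1) (by omega)
    have h5 : (K + 1) * K.choose (R + 1) = (K + 1).choose (R + 2) * (R + 2) :=
      Nat.add_one_mul_choose_eq K (R + 1)
    have h6 : (K + 1) * (K + 1 - (K + 3) / 2).choose (R + 1) ≤ (K + 1).choose (R + 2) := by
      have h7 : (R + 2) * ((K + 1) * (K + 1 - (K + 3) / 2).choose (R + 1)) ≤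
          (R + 2) * (K + 1).choose (R + 2) := by
        calc (R + 2) * ((K + 1) * (K + 1 - (K + 3) / 2).choose (R + 1))
            = (K + 1) * ((R + 1 + 1) * (K + 1 - (K + 3) / 2).choose (R + 1)) := by ring
          _ ≤ (K + 1) * K.choose (R + 1) := Nat.mul_le_mul_left _ h4
          _ = (R + 2) * (K + 1).choose (R + 2) := by rw [h5]; ring
      exact Nat.le_of_mul_le_mul_left h7 (by omega)
    rw [heq]
    calc (K + 1) * (cl G (R + 2) (nb G S v)).card
        ≤ (K + 1) * ((K + 1).choose (R + 2) + (K + 1 - (K + 3) / 2).choose (R + 1)) :=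
          Nat.mul_le_mul_left _ h3
      _ = (K + 1) * (K + 1).choose (R + 2) + (K + 1) * (K + 1 - (K + 3) / 2).choose (R + 1) := by
          ring
      _ ≤ (K + 1) * (K + 1).choose (R + 2) + (K + 1).choose (R + 2) :=
          Nat.add_le_add_left h6 _
      _ = _ := by ring
  · exact high G T hT K R hW S hS v hv (by omega)

theorem bound3 {W : Type} [Fintype W] (T : SimpleGraph W) (hT : T.IsTree) (K R : ℕ)
    (hW : Fintype.card W = K + 4)
    (hns : ∀ p, ∃ w, w ≠ p ∧ ¬ T.Adj p w) (S : Finset V) (hS : NoCopy G T S)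
    (hcl : ∀ Q ⊆ S, Q.card = K + 3 → ∃ u ∈ Q, ∃ z ∈ S, z ∉ Q ∧ G.Adj u z) :
    (K + 1) * ((R + 3) * (cl G (R + 3) S).card) ≤
      (K + 1).choose (R + 2) * ((K + 2) * S.card) := by
  have h1 := cl_succ G (R + 2) S
  have h2 := es_inside G T hT (K + 4) (by omega) hW S hS
  have e1 : K + 4 - 2 = K + 2 := by omega
  rw [e1] at h2
  calc (K + 1) * ((R + 3) * (cl G (R + 3) S).card)
      ≤ (K + 1) * ∑ v ∈ S, (cl G (R + 2) (S.filter (fun w => G.Adj v w))).card :=
        Nat.mul_le_mul_left _ h1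
    _ = ∑ v ∈ S, (K + 1) * (cl G (R + 2) (nb G S v)).card := by
        rw [Finset.mul_sum]; rfl
    _ ≤ ∑ v ∈ S, (K + 1).choose (R + 2) * (nb G S v).card :=
        Finset.sum_le_sum (fun v hv => rate' G T hT K R hW hns S hS hcl v hv)
    _ = (K + 1).choose (R + 2) * ∑ v ∈ S, (S.filter (fun w => G.Adj v w)).card := by
        rw [Finset.mul_sum]; rfl
    _ ≤ _ := Nat.mul_le_mul_left _ h2

/-- The reduction for non-stars. -/
theorem reduce3 {W : Type} [Fintype W] (T : SimpleGraph W) (hT : T.IsTree) (K R : ℕ)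
    (hR : R ≤ K) (hW : Fintype.card W = K + 4)
    (hns : ∀ p, ∃ w, w ≠ p ∧ ¬ T.Adj p w) (S : Finset V) (hS : NoCopy G T S)
    (h : f (K + 3) (R + 3) S.card < (cl G (R + 3) S).card) :
    ∃ (a : ℕ) (S' : Finset V), S' ⊆ S ∧ S.card = S'.card + a * (K + 3) ∧
      (R + 1) * S'.card < (K + 1) * (S.card % (K + 3)) ∧
      f (K + 3) (R + 3) S'.card < (cl G (R + 3) S').card ∧ K + 3 ≤ S'.card := by
  obtain ⟨a, S', h1, h2, h3, h4⟩ := split2 G K (R + 3) _ S rfl
  have hb := bound3 G T hT K R hW hns S' (NoCopy.mono G T h1 hS) h3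
  have hf : f (K + 3) (R + 3) S.card = a * (K + 3).choose (R + 3) + f (K + 3) (R + 3) S'.card := by
    rw [h2, f_add _ _ _ _ (by omega)]
  have h8 : f (K + 3) (R + 3) S'.card < (cl G (R + 3) S').card := by omega
  have h7 := num3 K R _ _ hR hb h8
  have hmod : S.card % (K + 3) = S'.card % (K + 3) := by
    rw [h2, Nat.add_mul_mod_self_right]
  refine ⟨a, S', h1, h2, by rw [hmod]; exact h7, h8, ?_⟩
  by_contra hcon
  push Not at hcon
  have h9 := cl_le_choose G (R + 3) S'
  have h10 : f (K + 3) (R + 3) S'.card = S'.card.choose (R + 3) := by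
    unfold f
    rw [Nat.div_eq_of_lt hcon, Nat.mod_eq_of_lt hcon]
    omega
  omega

end

end H802.TreeCl
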