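import Pool.Agent.H802.TreeCl.Loc

set_option autoImplicit false

namespace H802.TreeCl

open Finset H223R3.Tree

variable {V : Type*} [DecidableEq V] (G : SimpleGraph V) [DecidableRel G.Adj]

/-- a clique on `k - 1` vertices has no edge to the outside -/
theorem closed {W : Type} [Fintype W] (T : SimpleGraph W) (hT : T.IsTree) (K : ℕ)
    (hW : Fintype.card W = K + 4) (S : Finset V) (hS : NoCopy G T S) (Q : Finset V)
    (hQ : Q ∈ cl G (K + 3) S) (x : V) (hx : x ∈ Q) (y : V) (hy : y ∈ S) (hyQ : y ∉ Q) :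
    ¬ G.Adj x y := by
  classical
  intro hxy
  obtain ⟨l, p, ⟨hlp, hup⟩, -, -⟩ := remove_leaf T hT (K + 3) (by omega) hW
  rw [mem_cl] at hQ
  obtain ⟨⟨hQS, hQc⟩, hQa⟩ := hQ
  have hcard : Fintype.card {w : W // w ≠ l} = Fintype.card {z : V // z ∈ Q} := by
    rw [Fintype.card_coe, hQc]
    have : Fintype.card {w : W // w ≠ l} = Fintype.card W - 1 := by
      simp [Fintype.card_subtype_compl]
    rw [this, hW]; omega
  let e : {w : W // w ≠ l} ≃ {z : V // z ∈ Q} := Fintype.equivOfCardEq hcard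
  let e' : {w : W // w ≠ l} ≃ {z : V // z ∈ Q} :=
    e.trans (Equiv.swap (e ⟨p, hlp.ne.symm⟩) ⟨x, hx⟩)
  have he' : e' ⟨p, hlp.ne.symm⟩ = ⟨x, hx⟩ := by
    show Equiv.swap (e ⟨p, hlp.ne.symm⟩) ⟨x, hx⟩ (e ⟨p, hlp.ne.symm⟩) = ⟨x, hx⟩
    exact Equiv.swap_apply_left _ _
  apply hS
  refine ⟨fun w => if h : w = l then y else (e' ⟨w, h⟩).1, ?_, ?_, ?_⟩
  · intro a b hab
    simp only at hab
    by_cases ha : a = l
    · by_cases hb : b = l
      · rw [ha, hb]
      · rw [dif_pos ha, dif_neg hb] at hab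
        exact absurd (hab ▸ (e' ⟨b, hb⟩).2) hyQ
    · by_cases hb : b = l
      · rw [dif_neg ha, dif_pos hb] at hab
        exact absurd (hab ▸ (e' ⟨a, ha⟩).2) hyQ
      · rw [dif_neg ha, dif_neg hb] at hab
        have := e'.injective (Subtype.ext hab)
        exact congrArg Subtype.val this
  · intro w
    simp only
    split_ifs with h
    · exact hy
    · exact hQS (e' ⟨w, h⟩).2
  · intro a b hab
    simp only
    by_cases ha : a = l
    · have hb : ¬ b = l := fun h => hab.ne (by rw [ha, h])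
      have hbp : b = p := by
        rw [ha] at hab
        exact hup b hab
      subst hbp
      rw [dif_pos ha, dif_neg hb, he']
      exact hxy.symm
    · by_cases hb : b = l
      · have hap : a = p := by
          rw [hb] at hab
          exact hup a hab.symm
        subst hap
        rw [dif_neg ha, dif_pos hb, he']
        exact hxy
      · rw [dif_neg ha, dif_neg hb]
        apply hQa _ (e' ⟨a, ha⟩).2 _ (e' ⟨b, hb⟩).2
        intro h
        have := e'.injective (Subtype.ext h)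
        exact hab.ne (congrArg Subtype.val this)

/-- cliques do not cross a closed set -/
theorem cl_split (r : ℕ) (S Q : Finset V) 
    (h : ∀ x ∈ Q, ∀ y ∈ S, y ∉ Q → ¬ G.Adj x y) :
    (cl G r S).card ≤ Q.card.choose r + (cl G r (S \ Q)).card := by
  have hsub : cl G r S ⊆ cl G r Q ∪ cl G r (S \ Q) := by
    intro P hP
    rw [mem_cl] at hP
    rw [mem_union, mem_cl, mem_cl]
    by_cases hPQ : ∃ x ∈ P, x ∈ Q
    · left
      obtain ⟨x, hx, hxQ⟩ := hPQ
      refine ⟨⟨?_, hP.1.2⟩, hP.2⟩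
      intro y hy
      by_contra hyQ
      have hne : x ≠ y := fun h' => hyQ (h' ▸ hxQ)
      exact h x hxQ y (hP.1.1 hy) hyQ (hP.2 x hx y hy hne)
    · right
      push Not at hPQ
      refine ⟨⟨?_, hP.1.2⟩, hP.2⟩
      intro y hy
      rw [mem_sdiff]
      exact ⟨hP.1.1 hy, hPQ y hy⟩
  calc (cl G r S).card ≤ (cl G r Q ∪ cl G r (S \ Q)).card := card_le_card hsub
    _ ≤ (cl G r Q).card + (cl G r (S \ Q)).card := card_union_le _ _
    _ ≤ _ := Nat.add_le_add_right (cl_le_choose G r Q) _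

theorem NoCopy.mono {W : Type*} (T : SimpleGraph W) {S S' : Finset V} (h : S' ⊆ S)
    (hS : NoCopy G T S) : NoCopy G T S' := by
  rintro ⟨f, f1, f2, f3⟩
  exact hS ⟨f, f1, fun w => h (f2 w), f3⟩

/-- removal of all cliques on `k - 1` vertices -/
theorem split {W : Type} [Fintype W] (T : SimpleGraph W) (hT : T.IsTree) (K r : ℕ)
    (hW : Fintype.card W = K + 4) : ∀ (n : ℕ) (S : Finset V), S.card = n → NoCopy G T S →
    ∃ (a : ℕ) (S' : Finset V), S' ⊆ S ∧ S.card = S'.card + a * (K + 3) ∧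
      cl G (K + 3) S' = ∅ ∧
      (cl G r S).card ≤ a * (K + 3).choose r + (cl G r S').card ∧
      ∀ v ∈ S, v ∉ S' → ∃ Q ∈ cl G (K + 3) S, v ∈ Q ∧ ∀ x ∈ Q, ∀ y ∈ S, y ∉ Q → ¬ G.Adj x y := by
  intro n
  induction n using Nat.strong_induction_on with
  | _ n ih =>
    intro S hn hS
    by_cases h0 : cl G (K + 3) S = ∅
    · exact ⟨0, S, le_rfl, by omega, h0, by omega, fun v hv hv' => absurd hv hv'⟩
    · obtain ⟨Q, hQ⟩ := Finset.nonempty_iff_ne_empty.2 h0
      have hcl := closed G T hT K hW S hS Q hQ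
      have hQ' := (mem_cl G _ _ _).1 hQ
      have hlt : (S \ Q).card < n := by
        rw [card_sdiff_of_subset hQ'.1.1, hn, hQ'.1.2]
        have := card_le_card hQ'.1.1
        omega
      obtain ⟨a, S', h1, h2, h3, h4, h5⟩ := ih _ hlt (S \ Q) rfl
        (NoCopy.mono G T sdiff_subset hS)
      refine ⟨a + 1, S', h1.trans sdiff_subset, ?_, h3, ?_, ?_⟩
      · have h6 := card_sdiff_of_subset hQ'.1.1
        have h7 := card_le_card hQ'.1.1
        rw [hQ'.1.2] at h6 h7
        rw [Nat.add_mul, Nat.one_mul]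
        omega
      · have h6 := cl_split G r S Q (fun x hx y hy hyQ => hcl x hx y hy hyQ)
        rw [hQ'.1.2] at h6
        rw [Nat.add_mul, Nat.one_mul]
        omega
      · intro v hv hv'
        by_cases hvQ : v ∈ Q
        · exact ⟨Q, hQ, hvQ, fun x hx y hy hyQ => hcl x hx y hy hyQ⟩
        · obtain ⟨P, hP, hvP, hPc⟩ := h5 v (mem_sdiff.2 ⟨hv, hvQ⟩) hv'
          rw [mem_cl] at hP
          refine ⟨P, ?_, hvP, ?_⟩
          · rw [mem_cl]
            exact ⟨⟨hP.1.1.trans sdiff_subset, hP.1.2⟩, hP.2⟩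
          · intro x hx y hy hyP
            by_cases hyQ : y ∈ Q
            · intro hadj
              exact hcl y hyQ x (sdiff_subset (hP.1.1 hx)) (mem_sdiff.1 (hP.1.1 hx)).2 hadj.symm
            · exact hPc x hx y (mem_sdiff.2 ⟨hy, hyQ⟩) hyP

/-- `f m r n = (n / m) C(m, r) + C(n mod m, r)` -/
def f (m r n : ℕ) : ℕ := n / m * m.choose r + (n % m).choose r

theorem f_add (m r n a : ℕ) (hm : 0 < m) : f m r (n + a * m) = a * m.choose r + f m r n := by
  unfold f
  rw [Nat.add_mul_div_right _ _ hm, Nat.add_mul_mod_self_right]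
  ring

/-- numerical consequence of the main estimate -/
theorem num2 (K R n N : ℕ) (hR : R ≤ K)
    (h1 : (R + 3) * N + K.choose R * n ≤ (K + 2).choose (R + 2) * n)
    (h2 : f (K + 3) (R + 3) n ≤ N) :
    (R + 2) * (R + 1) * n ≤ (n % (K + 3)) * ((K + 2) * (K + 1)) := by
  have h3 : (R + 3) * f (K + 3) (R + 3) n ≥ (n / (K + 3)) * (K + 3) * (K + 2).choose (R + 2) := by
    have e : (K + 3) * (K + 2).choose (R + 2) = (K + 3).choose (R + 3) * (R + 3) :=
      Nat.add_one_mul_choose_eq (K + 2) (R + 2)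
    calc (R + 3) * f (K + 3) (R + 3) n ≥ (R + 3) * (n / (K + 3) * (K + 3).choose (R + 3)) :=
          Nat.mul_le_mul_left _ (Nat.le_add_right _ _)
      _ = n / (K + 3) * ((K + 3).choose (R + 3) * (R + 3)) := by ring
      _ = _ := by rw [← e]; ring
  have h4 : (R + 3) * f (K + 3) (R + 3) n ≤ (R + 3) * N := Nat.mul_le_mul_left _ h2
  have h5 : n = (n / (K + 3)) * (K + 3) + n % (K + 3) := by
    rw [Nat.mul_comm]; exact (Nat.div_add_mod n (K + 3)).symm
  set q := (n / (K + 3)) * (K + 3) with hq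
  set b := n % (K + 3) with hb
  have h6 : K.choose R * n ≤ (K + 2).choose (R + 2) * b := by
    have : (K + 2).choose (R + 2) * n = (K + 2).choose (R + 2) * q + (K + 2).choose (R + 2) * b := by
      conv_lhs => rw [h5]
      ring
    have h7 : q * (K + 2).choose (R + 2) = (K + 2).choose (R + 2) * q := Nat.mul_comm _ _
    omega
  have e1 : (K + 1) * K.choose R = (K + 1).choose (R + 1) * (R + 1) :=
    Nat.add_one_mul_choose_eq K R
  have e2 : (K + 2) * (K + 1).choose (R + 1) = (K + 2).choose (R + 2) * (R + 2) :=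
    Nat.add_one_mul_choose_eq (K + 1) (R + 1)
  have hpos : 0 < (K + 2).choose (R + 2) := Nat.choose_pos (by omega)
  have h8 : (K + 2).choose (R + 2) * ((R + 2) * (R + 1) * n) ≤
      (K + 2).choose (R + 2) * (b * ((K + 2) * (K + 1))) := by
    calc (K + 2).choose (R + 2) * ((R + 2) * (R + 1) * n)
        = ((K + 2).choose (R + 2) * (R + 2)) * (R + 1) * n := by ring
      _ = ((K + 2) * (K + 1).choose (R + 1)) * (R + 1) * n := by rw [e2]
      _ = (K + 2) * ((K + 1).choose (R + 1) * (R + 1)) * n := by ring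
      _ = (K + 2) * ((K + 1) * K.choose R) * n := by rw [e1]
      _ = (K + 2) * (K + 1) * (K.choose R * n) := by ring
      _ ≤ (K + 2) * (K + 1) * ((K + 2).choose (R + 2) * b) := Nat.mul_le_mul_left _ h6
      _ = _ := by ring
  exact Nat.le_of_mul_le_mul_left h8 hpos

/-- The reduction: a `T`-free graph with at least (more than) `f(n)` cliques. -/
theorem reduce {W : Type} [Fintype W] (T : SimpleGraph W) (hT : T.IsTree) (K R : ℕ)
    (hR : R ≤ K) (hW : Fintype.card W = K + 4) (S : Finset V) (hS : NoCopy G T S)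
    (h : f (K + 3) (R + 3) S.card ≤ (cl G (R + 3) S).card) :
    ∃ (a : ℕ) (S' : Finset V), S' ⊆ S ∧ S.card = S'.card + a * (K + 3) ∧
      (R + 2) * (R + 1) * S'.card ≤ (S.card % (K + 3)) * ((K + 2) * (K + 1)) ∧
      (∀ v ∈ S, v ∉ S' → ∃ Q ∈ cl G (K + 3) S, v ∈ Q ∧
        ∀ x ∈ Q, ∀ y ∈ S, y ∉ Q → ¬ G.Adj x y) ∧
      (f (K + 3) (R + 3) S.card < (cl G (R + 3) S).card →
        f (K + 3) (R + 3) S'.card < (cl G (R + 3) S').card ∧ K + 3 ≤ S'.card) := by
  obtain ⟨a, S', h1, h2, h3, h4, h5⟩ := split G T hT K (R + 3) hW _ S rfl hS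
  have hb := bound G T hT K R hR hW S' (NoCopy.mono G T h1 hS) h3
  have hf : f (K + 3) (R + 3) S.card = a * (K + 3).choose (R + 3) + f (K + 3) (R + 3) S'.card := by
    rw [h2, f_add _ _ _ _ (by omega)]
  have h6 : f (K + 3) (R + 3) S'.card ≤ (cl G (R + 3) S').card := by omega
  have h7 := num2 K R _ _ hR hb h6
  have hmod : S.card % (K + 3) = S'.card % (K + 3) := by
    rw [h2, Nat.add_mul_mod_self_right]
  refine ⟨a, S', h1, h2, by rw [hmod]; exact h7, h5, ?_⟩
  intro hlt
  have h8 : f (K + 3) (R + 3) S'.card < (cl G (R + 3) S').card := by omega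
  refine ⟨h8, ?_⟩
  by_contra hcon
  push Not at hcon
  have h9 := cl_le_choose G (R + 3) S'
  have h10 : f (K + 3) (R + 3) S'.card = S'.card.choose (R + 3) := by
    unfold f
    rw [Nat.div_eq_of_lt hcon, Nat.mod_eq_of_lt hcon]
    omega
  omega

/-- the number of cliques does not change under an injection -/
theorem cl_comap {n : ℕ} (r : ℕ) (φ : Fin n ↪ V) (S : Finset V) (hS : univ.map φ = S)
    (H : SimpleGraph (Fin n)) [DecidableRel H.Adj] (hH : ∀ a b, H.Adj a b ↔ G.Adj (φ a) (φ b)) :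
    (cl G r S).card ≤ (cl H r univ).card := by
  have : cl G r S ⊆ (cl H r univ).map (Finset.mapEmbedding φ).toEmbedding := by
    intro Q hQ
    rw [mem_cl] at hQ
    rw [mem_map]
    have hm : (univ.filter (fun a => φ a ∈ Q)).map φ = Q := by
      ext x
      rw [mem_map]
      constructor
      · rintro ⟨a, ha, rfl⟩
        exact (mem_filter.1 ha).2
      · intro hx
        have h1 := hQ.1.1 hx
        rw [← hS, mem_map] at h1
        obtain ⟨a, _, rfl⟩ := h1
        exact ⟨a, mem_filter.2 ⟨mem_univ _, hx⟩, rfl⟩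
    refine ⟨univ.filter (fun a => φ a ∈ Q), ?_, hm⟩
    rw [mem_cl]
    refine ⟨⟨subset_univ _, ?_⟩, ?_⟩
    · rw [← hQ.1.2]
      conv_rhs => rw [← hm]
      rw [card_map]
    · intro a ha b hb hab
      rw [hH]
      exact hQ.2 _ (mem_filter.1 ha).2 _ (mem_filter.1 hb).2 (fun h => hab (φ.injective h))
  calc (cl G r S).card ≤ _ := card_le_card this
    _ = _ := card_map _

end H802.TreeCl
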