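import Pool.Agent.H802.TreeCl.Fine
import Pool.Graph.R_seed8.R367.TF.SUP
import Pool.Graph.R_seed8.R367.TF.LOC
import Pool.Graph.R_seed8.R367.TF.CHASE

set_option autoImplicit false

namespace H802.TreeCl

open Finset H223R3.Tree

/-- stars: Chase's theorem -/
theorem star {V : Type} [DecidableEq V] (G : SimpleGraph V) [DecidableRel G.Adj]
    {W : Type} [Fintype W] (T : SimpleGraph W) (hT : T.IsTree) (K R : ℕ)
    (hW : Fintype.card W = K + 4) (p : W) (hp : ∀ w, w ≠ p → T.Adj p w) (S : Finset V)
    (hS : NoCopy G T S) : (cl G (R + 3) S).card ≤ f (K + 3) (R + 3) S.card := by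
  classical
  have hdeg : ∀ v ∈ S, (R367.TF.nb G v S).card + 1 ≤ K + 3 := by
    intro v hv
    by_contra hcon
    push Not at hcon
    set N := R367.TF.nb G v S with hN
    have hcard : Fintype.card {w : W // w ≠ p} ≤ Fintype.card {z : V // z ∈ N} := by
      rw [Fintype.card_coe]
      have : Fintype.card {w : W // w ≠ p} = Fintype.card W - 1 := by
        simp [Fintype.card_subtype_compl]
      rw [this, hW]; omega
    obtain ⟨e⟩ := Function.Embedding.nonempty_of_card_le hcard
    have hmem : ∀ z ∈ N, z ∈ S ∧ G.Adj v z := fun z hz => mem_filter.1 hz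
    apply hS
    refine ⟨fun w => if h : w = p then v else (e ⟨w, h⟩).1, ?_, ?_, ?_⟩
    · intro a b hab
      simp only at hab
      by_cases ha : a = p
      · by_cases hb : b = p
        · rw [ha, hb]
        · rw [dif_pos ha, dif_neg hb] at hab
          exact absurd hab (hmem _ (e ⟨b, hb⟩).2).2.ne
      · by_cases hb : b = p
        · rw [dif_neg ha, dif_pos hb] at hab
          exact absurd hab.symm (hmem _ (e ⟨a, ha⟩).2).2.ne
        · rw [dif_neg ha, dif_neg hb] at hab
          have := e.injective (Subtype.ext hab)
          exact congrArg Subtype.val this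
    · intro w
      simp only
      split_ifs with h
      · exact hv
      · exact (hmem _ (e ⟨w, h⟩).2).1
    · intro a b hab
      simp only
      by_cases ha : a = p
      · have hb : ¬ b = p := fun h => hab.ne (by rw [ha, h])
        rw [dif_pos ha, dif_neg hb]
        exact (hmem _ (e ⟨b, hb⟩).2).2
      · by_cases hb : b = p
        · rw [dif_neg ha, dif_pos hb]
          exact (hmem _ (e ⟨a, ha⟩).2).2.symm
        · exfalso
          have h3 : T.CliqueFree 3 := hT.isAcyclic.cliqueFree le_rfl
          apply h3 {p, a, b}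
          rw [SimpleGraph.is3Clique_iff]
          exact ⟨p, a, b, hp a ha, hp b hb, hab, rfl⟩
  have h := R367.TF.CHASE.main R367.TF.SUP.main R367.TF.LOC.main V G (R + 3) (K + 3) S
    (by omega) (by omega) hdeg
  exact h

end H802.TreeCl
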